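import Pool.Agent.APL86.LLL

set_option autoImplicit false

/-!
# (AP) assignment lemma (helper66, lem_ans 705)
-/

open Finset

namespace Pool.Agent.APL86

variable {R Y S : Type*} [Fintype R] [DecidableEq R] [DecidableEq Y] {n : ℕ}

/-- the rows with symbol `y` in column `j` -/
def cls (A : R → Fin n → Y) (j : Fin n) (y : Y) : Finset R :=
  univ.filter (fun r => A r j = y)

/-- number of rows with symbol `y` in column `j` -/
def lam (A : R → Fin n → Y) (j : Fin n) (y : Y) : ℕ := (cls A j y).card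

omit [DecidableEq R] in
lemma mem_cls {A : R → Fin n → Y} {j : Fin n} {y : Y} {r : R} : r ∈ cls A j y ↔ A r j = y := by
  unfold cls
  simp

omit [DecidableEq R] in
lemma lam_pos (A : R → Fin n → Y) (j : Fin n) (i : R) : 0 < lam A j (A i j) :=
  card_pos.2 ⟨i, mem_cls.2 rfl⟩

/-- an event: the cells `(i, j)`, `(i, j')` of the row `i` play the roles of the rows `r`, `r'` -/
structure Ev (R : Type*) (n : ℕ) where
  i : R
  j : Fin n
  k : Fin n
  r : R
  q : R
deriving DecidableEq

/-- events as a product -/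
def evEquiv (R : Type*) (n : ℕ) : Ev R n ≃ R × Fin n × Fin n × R × R where
  toFun e := (e.i, e.j, e.k, e.r, e.q)
  invFun p := ⟨p.1, p.2.1, p.2.2.1, p.2.2.2.1, p.2.2.2.2⟩
  left_inv _ := rfl
  right_inv _ := rfl

instance : Fintype (Ev R n) := Fintype.ofEquiv _ (evEquiv R n).symm

/-- the bad events -/
def IsBad (A : R → Fin n → Y) (sig : Fin n → R → Option S) (e : Ev R n) : Prop :=
  e.j < e.k ∧ A e.r e.j = A e.i e.j ∧ A e.q e.k = A e.i e.k ∧
    ∃ s, sig e.j e.r = some s ∧ sig e.k e.q = some s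

/-- configurations: permutations of the rows in every column which keep the symbols -/
def confs (A : R → Fin n → Y) : Finset (Fin n → Equiv.Perm R) :=
  univ.filter (fun f => ∀ j i, A (f j i) j = A i j)

/-- the configurations in the event `e` -/
def BE (e : Ev R n) : Finset (Fin n → Equiv.Perm R) :=
  univ.filter (fun f => f e.j e.i = e.r ∧ f e.k e.i = e.q)

lemma mem_BE {e : Ev R n} {f : Fin n → Equiv.Perm R} :
    f ∈ BE e ↔ f e.j e.i = e.r ∧ f e.k e.i = e.q := by
  unfold BE
  simp

lemma mem_confs {A : R → Fin n → Y} {f : Fin n → Equiv.Perm R} :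
    f ∈ confs A ↔ ∀ j i, A (f j i) j = A i j := by
  unfold confs
  simp

/-- the pair `(i, j)` occurs in the event `f` -/
def hasD (i : R) (j : Fin n) (f : Ev R n) : Prop := f.i = i ∧ (f.j = j ∨ f.k = j)

/-- the slot `(j, r)` occurs in the event `f` -/
def hasS (j : Fin n) (r : R) (f : Ev R n) : Prop := (f.j = j ∧ f.r = r) ∨ (f.k = j ∧ f.q = r)

omit [Fintype R] in
lemma swap_step {g : Equiv.Perm R} {i i2 r r2 x : R} (h1 : g i = r) (h2 : i2 ≠ i) (h3 : r2 ≠ r)
    (h4 : Equiv.swap r x (g i2) = r2) : g i2 = r2 := by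
  have h5 : g i2 ≠ r := fun h => h2 (g.injective (h.trans h1.symm))
  by_cases h6 : g i2 = x
  · rw [h6, Equiv.swap_apply_right] at h4
    exact absurd h4.symm h3
  · rwa [Equiv.swap_apply_of_ne_of_ne h5 h6] at h4

/-- the modified configuration -/
def modi (f : Fin n → Equiv.Perm R) (e : Ev R n) (x x' : R) : Fin n → Equiv.Perm R :=
  fun l => if l = e.j then Equiv.swap e.r x * f l else if l = e.k then Equiv.swap e.q x' * f l
    else f l

omit [Fintype R] in
lemma modi_j (f : Fin n → Equiv.Perm R) (e : Ev R n) (x x' : R) :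
    modi f e x x' e.j = Equiv.swap e.r x * f e.j := by
  unfold modi
  rw [if_pos rfl]

omit [Fintype R] in
lemma modi_k (f : Fin n → Equiv.Perm R) (e : Ev R n) (x x' : R) (h : e.j ≠ e.k) :
    modi f e x x' e.k = Equiv.swap e.q x' * f e.k := by
  unfold modi
  rw [if_neg h.symm, if_pos rfl]

omit [Fintype R] in
lemma modi_o (f : Fin n → Equiv.Perm R) (e : Ev R n) (x x' : R) {l : Fin n} (h : l ≠ e.j)
    (h' : l ≠ e.k) : modi f e x x' l = f l := by
  unfold modi
  rw [if_neg h, if_neg h']

/-- one leg of the argument: a cell statement of the modified configuration that shares neither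
the pair nor the slot with `e` holds for the original configuration -/
lemma leg {f : Fin n → Equiv.Perm R} {e : Ev R n} (hjk : e.j ≠ e.k) (hf : f ∈ BE e) {x x' : R}
    {i2 r2 : R} {l : Fin n} (hj : l = e.j → i2 ≠ e.i ∧ r2 ≠ e.r) (hk : l = e.k → i2 ≠ e.i ∧ r2 ≠ e.q)
    (h : modi f e x x' l i2 = r2) : f l i2 = r2 := by
  rw [mem_BE] at hf
  by_cases h1 : l = e.j
  · subst h1
    rw [modi_j] at h
    exact swap_step hf.1 (hj rfl).1 (hj rfl).2 h
  · by_cases h2 : l = e.k
    · subst h2
      rw [modi_k _ _ _ _ hjk] at h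
      exact swap_step hf.2 (hk rfl).1 (hk rfl).2 h
    · rwa [modi_o _ _ _ _ h1 h2] at h

omit [Fintype R] [DecidableEq Y] in
lemma swap_sym {A : R → Fin n → Y} {j : Fin n} {r x z : R} (h : A x j = A r j) :
    A (Equiv.swap r x z) j = A z j := by
  by_cases h1 : z = r
  · subst h1
    rw [Equiv.swap_apply_left, h]
  · by_cases h2 : z = x
    · subst h2
      rw [Equiv.swap_apply_right, h]
    · rw [Equiv.swap_apply_of_ne_of_ne h1 h2]

/-- the counting inequality: `lam * lam' * #(av T ∩ B e) ≤ #(av T)` -/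
lemma count_le (A : R → Fin n → Y) (sig : Fin n → R → Option S) {e : Ev R n} (he : IsBad A sig e)
    (T : Finset (Ev R n))
    (hT : ∀ f ∈ T, ¬ (hasD e.i e.j f ∨ hasD e.i e.k f ∨ hasS e.j e.r f ∨ hasS e.k e.q f)) :
    (av (confs A) BE T ∩ BE e).card * (lam A e.j (A e.i e.j) * lam A e.k (A e.i e.k)) ≤
      (av (confs A) BE T).card := by
  have hjk : e.j ≠ e.k := ne_of_lt he.1
  unfold lam
  rw [← card_product, ← card_product]
  apply card_le_card_of_injOn (fun p => modi p.1 e p.2.1 p.2.2)
  · intro p hp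
    rw [mem_coe, mem_product, mem_product, mem_inter, mem_cls, mem_cls, mem_av] at hp
    obtain ⟨⟨⟨hc, hav⟩, hB⟩, hx, hx'⟩ := hp
    rw [mem_coe, mem_av]
    rw [mem_confs] at hc
    constructor
    · rw [mem_confs]
      intro l i
      by_cases h1 : l = e.j
      · subst h1
        simp only [modi_j]
        rw [Equiv.Perm.mul_apply, swap_sym (hx.trans he.2.1.symm), hc]
      · by_cases h2 : l = e.k
        · subst h2
          simp only [modi_k _ _ _ _ hjk]
          rw [Equiv.Perm.mul_apply, swap_sym (hx'.trans he.2.2.1.symm), hc]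
        · simp only [modi_o _ _ _ _ h1 h2]
          exact hc l i
    · intro f hf hBf
      apply hav f hf
      have hn := hT f hf
      rw [mem_BE] at hBf
      rw [mem_BE]
      simp only [hasD, hasS, not_or, not_and_or] at hn
      obtain ⟨hd1, hd2, hs1, hs2⟩ := hn
      constructor
      · apply leg hjk hB _ _ hBf.1
        · intro h
          refine ⟨fun h' => ?_, fun h' => ?_⟩
          · rcases hd1 with h3 | h3
            · exact h3 h'
            · exact h3.1 h
          · rcases hs1.1 with h3 | h3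
            · exact h3 h
            · exact h3 h'
        · intro h
          refine ⟨fun h' => ?_, fun h' => ?_⟩
          · rcases hd2 with h3 | h3
            · exact h3 h'
            · exact h3.1 h
          · rcases hs2.1 with h3 | h3
            · exact h3 h
            · exact h3 h'
      · apply leg hjk hB _ _ hBf.2
        · intro h
          refine ⟨fun h' => ?_, fun h' => ?_⟩
          · rcases hd1 with h3 | h3
            · exact h3 h'
            · exact h3.2 h
          · rcases hs1.2 with h3 | h3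
            · exact h3 h
            · exact h3 h'
        · intro h
          refine ⟨fun h' => ?_, fun h' => ?_⟩
          · rcases hd2 with h3 | h3
            · exact h3 h'
            · exact h3.2 h
          · rcases hs2.2 with h3 | h3
            · exact h3 h
            · exact h3 h'
  · intro p hp p' hp' hpp
    rw [mem_coe, mem_product, mem_inter, mem_BE] at hp hp'
    obtain ⟨⟨-, hB⟩, -⟩ := hp
    obtain ⟨⟨-, hB'⟩, -⟩ := hp'
    simp only at hpp
    have e1 : Equiv.swap e.r p.2.1 * p.1 e.j = Equiv.swap e.r p'.2.1 * p'.1 e.j := by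
      rw [← modi_j p.1 e p.2.1 p.2.2, ← modi_j p'.1 e p'.2.1 p'.2.2, hpp]
    have e2 : Equiv.swap e.q p.2.2 * p.1 e.k = Equiv.swap e.q p'.2.2 * p'.1 e.k := by
      rw [← modi_k p.1 e p.2.1 p.2.2 hjk, ← modi_k p'.1 e p'.2.1 p'.2.2 hjk, hpp]
    have x1 : p.2.1 = p'.2.1 := by
      have := congrArg (fun g : Equiv.Perm R => g e.i) e1
      simp only [Equiv.Perm.mul_apply] at this
      rwa [hB.1, hB'.1, Equiv.swap_apply_left, Equiv.swap_apply_left] at this
    have x2 : p.2.2 = p'.2.2 := by
      have := congrArg (fun g : Equiv.Perm R => g e.i) e2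
      simp only [Equiv.Perm.mul_apply] at this
      rwa [hB.2, hB'.2, Equiv.swap_apply_left, Equiv.swap_apply_left] at this
    have f1 : p.1 = p'.1 := by
      funext l
      by_cases h1 : l = e.j
      · subst h1
        rw [x1] at e1
        exact mul_left_cancel e1
      · by_cases h2 : l = e.k
        · subst h2
          rw [x2] at e2
          exact mul_left_cancel e2
        · rw [← modi_o p.1 e p.2.1 p.2.2 h1 h2, hpp, modi_o _ _ _ _ h1 h2]
    exact Prod.ext f1 (Prod.ext x1 x2)

/-- the probability of an event -/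
def PE (A : R → Fin n → Y) (e : Ev R n) : ℚ :=
  1 / ((lam A e.j (A e.i e.j) : ℚ) * lam A e.k (A e.i e.k))

omit [DecidableEq R] in
lemma PE_nonneg (A : R → Fin n → Y) (e : Ev R n) : 0 ≤ PE A e := by
  unfold PE
  positivity

omit [Fintype R] [DecidableEq R] [DecidableEq Y] in
lemma bad_lt {A : R → Fin n → Y} {sig : Fin n → R → Option S} {e : Ev R n} (he : IsBad A sig e) :
    e.j < e.k := he.1

open Classical in
/-- events through the pair `(i, j)` -/
lemma sum_D (A : R → Fin n → Y) (sig : Fin n → R → Option S)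
    (hsig : ∀ j r r' s, sig j r = some s → sig j r' = some s → r = r')
    (h : ∀ i, ∑ j, 1 / (lam A j (A i j) : ℚ) ≤ 1 / 16) (i : R) (j : Fin n)
    (F : Finset (Ev R n)) (hF : ∀ f ∈ F, IsBad A sig f ∧ hasD i j f) :
    ∑ f ∈ F, PE A f ≤ 1 / 16 := by
  set φ : Ev R n → Fin n × R := fun f => if f.j = j then (f.k, f.r) else (f.j, f.q) with hφ
  set g : Fin n × R → ℚ := fun p => 1 / ((lam A j (A i j) : ℚ) * lam A p.1 (A i p.1)) with hg
  have key : ∀ f ∈ F, (f.j = j ∧ f.i = i ∧ φ f = (f.k, f.r)) ∨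
      (f.k = j ∧ f.i = i ∧ f.j ≠ j ∧ φ f = (f.j, f.q)) := by
    intro f hf
    obtain ⟨hb, hi, hd⟩ := hF f hf
    by_cases h1 : f.j = j
    · exact Or.inl ⟨h1, hi, by rw [hφ]; simp only; rw [if_pos h1]⟩
    · rcases hd with h2 | h2
      · exact absurd h2 h1
      · exact Or.inr ⟨h2, hi, h1, by rw [hφ]; simp only; rw [if_neg h1]⟩
  have e1 : ∑ f ∈ F, PE A f = ∑ f ∈ F, g (φ f) := by
    apply sum_congr rfl
    intro f hf
    rcases key f hf with ⟨h1, h2, h3⟩ | ⟨h1, h2, -, h3⟩
    · rw [h3, hg]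
      unfold PE
      simp only
      rw [← h1, ← h2]
    · rw [h3, hg]
      unfold PE
      simp only
      rw [← h1, ← h2, mul_comm]
  have inj : Set.InjOn φ F := by
    intro f hf f' hf' hff
    obtain ⟨⟨hlt, hr, hq, s, hs1, hs2⟩, -⟩ := hF f hf
    obtain ⟨⟨hlt', hr', hq', s', hs1', hs2'⟩, -⟩ := hF f' hf'
    rcases key f hf with ⟨h1, h2, h3⟩ | ⟨h1, h2, h4, h3⟩
    · rcases key f' hf' with ⟨h1', h2', h3'⟩ | ⟨h1', h2', h4', h3'⟩
      · rw [h3, h3', Prod.mk.injEq] at hff
        obtain ⟨h5, h6⟩ := hff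
        rw [h1] at hs1
        rw [h1', ← h6] at hs1'
        have h7 : s = s' := Option.some_injective _ (hs1.symm.trans hs1')
        rw [h5] at hs2
        rw [h7] at hs2
        have h8 := hsig _ _ _ _ hs2 hs2'
        cases f; cases f'
        simp only at h1 h2 h5 h6 h8 h1' h2'
        subst h1 h2 h5 h6 h8 h1' h2'
        rfl
      · rw [h3, h3', Prod.mk.injEq] at hff
        rw [h1, hff.1] at hlt
        rw [h1'] at hlt'
        exact absurd hlt (not_lt.2 hlt'.le)
    · rcases key f' hf' with ⟨h1', h2', h3'⟩ | ⟨h1', h2', h4', h3'⟩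
      · rw [h3, h3', Prod.mk.injEq] at hff
        rw [h1, hff.1] at hlt
        rw [h1'] at hlt'
        exact absurd hlt (not_lt.2 hlt'.le)
      · rw [h3, h3', Prod.mk.injEq] at hff
        obtain ⟨h5, h6⟩ := hff
        rw [h1] at hs2
        rw [h1', ← h6] at hs2'
        have h7 : s = s' := Option.some_injective _ (hs2.symm.trans hs2')
        rw [h5, h7] at hs1
        have h8 := hsig _ _ _ _ hs1 hs1'
        cases f; cases f'
        simp only at h1 h2 h5 h6 h8 h1' h2'
        subst h1 h2 h5 h6 h8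
        subst h1' h2'
        rfl
  have hsub : F.image φ ⊆ univ ×ˢ cls A j (A i j) := by
    intro p hp
    obtain ⟨f, hf, rfl⟩ := mem_image.1 hp
    obtain ⟨⟨hlt, hr, hq, -⟩, -⟩ := hF f hf
    rw [mem_product]
    refine ⟨mem_univ _, ?_⟩
    rcases key f hf with ⟨h1, h2, h3⟩ | ⟨h1, h2, -, h3⟩
    · rw [h3, mem_cls]
      simp only
      rw [← h1, ← h2]
      exact hr
    · rw [h3, mem_cls]
      simp only
      rw [← h1, ← h2]
      exact hq
  have hl := lam_pos A j i
  calc ∑ f ∈ F, PE A f = ∑ f ∈ F, g (φ f) := e1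
    _ = ∑ p ∈ F.image φ, g p := (sum_image (fun a ha b hb => inj ha hb)).symm
    _ ≤ ∑ p ∈ univ ×ˢ cls A j (A i j), g p := by
        apply sum_le_sum_of_subset_of_nonneg hsub
        intro p _ _
        rw [hg]
        positivity
    _ = ∑ k, 1 / (lam A k (A i k) : ℚ) := by
        rw [sum_product]
        apply sum_congr rfl
        intro k _
        rw [hg]
        simp only
        rw [sum_const, nsmul_eq_mul]
        have h1 : ((cls A j (A i j)).card : ℚ) = lam A j (A i j) := rfl
        rw [h1]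
        have h2 : (lam A j (A i j) : ℚ) ≠ 0 := by exact_mod_cast hl.ne'
        have h3 : (lam A k (A i k) : ℚ) ≠ 0 := by exact_mod_cast (lam_pos A k i).ne'
        field_simp
    _ ≤ 1 / 16 := h i

open Classical in
/-- events through the slot `(j, r0)` -/
lemma sum_S (A : R → Fin n → Y) (sig : Fin n → R → Option S)
    (hsig : ∀ j r r' s, sig j r = some s → sig j r' = some s → r = r')
    (h : ∀ i, ∑ j, 1 / (lam A j (A i j) : ℚ) ≤ 1 / 16) (j : Fin n) (r0 : R)
    (F : Finset (Ev R n)) (hF : ∀ f ∈ F, IsBad A sig f ∧ hasS j r0 f) :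
    ∑ f ∈ F, PE A f ≤ 1 / 16 := by
  set φ : Ev R n → R × Fin n := fun f => if f.j = j then (f.i, f.k) else (f.i, f.j) with hφ
  set g : R × Fin n → ℚ := fun p => 1 / ((lam A j (A r0 j) : ℚ) * lam A p.2 (A p.1 p.2)) with hg
  have key : ∀ f ∈ F, (f.j = j ∧ f.r = r0 ∧ φ f = (f.i, f.k)) ∨
      (f.k = j ∧ f.q = r0 ∧ f.j ≠ j ∧ φ f = (f.i, f.j)) := by
    intro f hf
    obtain ⟨hb, hd⟩ := hF f hf
    by_cases h1 : f.j = j
    · have hne : f.k ≠ j := fun h2 => absurd hb.1 (by rw [h1, h2]; exact lt_irrefl _)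
      rcases hd with h2 | h2
      · exact Or.inl ⟨h1, h2.2, by rw [hφ]; simp only; rw [if_pos h1]⟩
      · exact absurd h2.1 hne
    · rcases hd with h2 | h2
      · exact absurd h2.1 h1
      · exact Or.inr ⟨h2.1, h2.2, h1, by rw [hφ]; simp only; rw [if_neg h1]⟩
  have e1 : ∑ f ∈ F, PE A f = ∑ f ∈ F, g (φ f) := by
    apply sum_congr rfl
    intro f hf
    obtain ⟨⟨hlt, hr, hq, -⟩, -⟩ := hF f hf
    rcases key f hf with ⟨h1, h2, h3⟩ | ⟨h1, h2, -, h3⟩
    · rw [h3, hg]
      unfold PE
      simp only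
      rw [← hr, h1, h2]
    · rw [h3, hg]
      unfold PE
      simp only
      rw [← hq, h1, h2, mul_comm]
  have inj : Set.InjOn φ F := by
    intro f hf f' hf' hff
    obtain ⟨⟨hlt, hr, hq, s, hs1, hs2⟩, -⟩ := hF f hf
    obtain ⟨⟨hlt', hr', hq', s', hs1', hs2'⟩, -⟩ := hF f' hf'
    rcases key f hf with ⟨h1, h2, h3⟩ | ⟨h1, h2, h4, h3⟩
    · rcases key f' hf' with ⟨h1', h2', h3'⟩ | ⟨h1', h2', h4', h3'⟩
      · rw [h3, h3', Prod.mk.injEq] at hff
        obtain ⟨h5, h6⟩ := hff
        rw [h1, h2] at hs1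
        rw [h1', h2'] at hs1'
        have h7 : s = s' := Option.some_injective _ (hs1.symm.trans hs1')
        rw [h6, h7] at hs2
        have h8 := hsig _ _ _ _ hs2 hs2'
        cases f; cases f'
        simp only at h1 h2 h5 h6 h8 h1' h2'
        subst h1 h2 h5 h6 h8 h1' h2'
        rfl
      · rw [h3, h3', Prod.mk.injEq] at hff
        rw [h1, hff.2] at hlt
        rw [h1'] at hlt'
        exact absurd hlt (not_lt.2 hlt'.le)
    · rcases key f' hf' with ⟨h1', h2', h3'⟩ | ⟨h1', h2', h4', h3'⟩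
      · rw [h3, h3', Prod.mk.injEq] at hff
        rw [h1, hff.2] at hlt
        rw [h1'] at hlt'
        exact absurd hlt (not_lt.2 hlt'.le)
      · rw [h3, h3', Prod.mk.injEq] at hff
        obtain ⟨h5, h6⟩ := hff
        rw [h1, h2] at hs2
        rw [h1', h2'] at hs2'
        have h7 : s = s' := Option.some_injective _ (hs2.symm.trans hs2')
        rw [h6, h7] at hs1
        have h8 := hsig _ _ _ _ hs1 hs1'
        cases f; cases f'
        simp only at h1 h2 h5 h6 h8 h1' h2'
        subst h1 h2 h5 h6 h8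
        subst h1' h2'
        rfl
  have hsub : F.image φ ⊆ cls A j (A r0 j) ×ˢ univ := by
    intro p hp
    obtain ⟨f, hf, rfl⟩ := mem_image.1 hp
    obtain ⟨⟨hlt, hr, hq, -⟩, -⟩ := hF f hf
    rw [mem_product]
    refine ⟨?_, mem_univ _⟩
    rcases key f hf with ⟨h1, h2, h3⟩ | ⟨h1, h2, -, h3⟩
    · rw [h3, mem_cls]
      simp only
      rw [← h1, ← h2]
      exact hr.symm
    · rw [h3, mem_cls]
      simp only
      rw [← h1, ← h2]
      exact hq.symm
  have hl := lam_pos A j r0
  have h2 : (lam A j (A r0 j) : ℚ) ≠ 0 := by exact_mod_cast hl.ne'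
  have h2' : (0 : ℚ) ≤ 1 / (lam A j (A r0 j) : ℚ) := by positivity
  calc ∑ f ∈ F, PE A f = ∑ f ∈ F, g (φ f) := e1
    _ = ∑ p ∈ F.image φ, g p := (sum_image (fun a ha b hb => inj ha hb)).symm
    _ ≤ ∑ p ∈ cls A j (A r0 j) ×ˢ univ, g p := by
        apply sum_le_sum_of_subset_of_nonneg hsub
        intro p _ _
        rw [hg]
        positivity
    _ = ∑ i ∈ cls A j (A r0 j), 1 / (lam A j (A r0 j) : ℚ) *
          ∑ k, 1 / (lam A k (A i k) : ℚ) := by
        rw [sum_product]
        apply sum_congr rfl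
        intro i _
        rw [hg, mul_sum]
        apply sum_congr rfl
        intro k _
        simp only
        rw [one_div_mul_one_div]
    _ ≤ ∑ i ∈ cls A j (A r0 j), 1 / (lam A j (A r0 j) : ℚ) * (1 / 16) := by
        apply sum_le_sum
        intro i _
        exact mul_le_mul_of_nonneg_left (h i) h2'
    _ = 1 / 16 := by
        rw [sum_const, nsmul_eq_mul]
        have h1 : ((cls A j (A r0 j)).card : ℚ) = lam A j (A r0 j) := rfl
        rw [h1]
        field_simp

open Classical in
/-- (AP): the assignment lemma -/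
theorem AP (A : R → Fin n → Y) (sig : Fin n → R → Option S)
    (hsig : ∀ j r r' s, sig j r = some s → sig j r' = some s → r = r')
    (h : ∀ i, ∑ j, 1 / (lam A j (A i j) : ℚ) ≤ 1 / 16) :
    ∃ f : Fin n → Equiv.Perm R, (∀ j i, A (f j i) j = A i j) ∧
      ∀ i j j' s, j ≠ j' → sig j (f j i) = some s → sig j' (f j' i) ≠ some s := by
  set E : Finset (Ev R n) := univ.filter (IsBad A sig) with hE
  have mE : ∀ e, e ∈ E ↔ IsBad A sig e := by
    intro e
    rw [hE, mem_filter]
    simp
  set sh : Ev R n → Ev R n → Prop := fun e f =>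
    hasD e.i e.j f ∨ hasD e.i e.k f ∨ hasS e.j e.r f ∨ hasS e.k e.q f with hsh
  set nb : Ev R n → Finset (Ev R n) := fun e => E.filter (sh e) with hnb
  have hne : (av (confs A) BE E).Nonempty := by
    apply lopsided (confs A) ⟨fun _ => 1, mem_confs.2 (fun _ _ => rfl)⟩ BE E nb (PE A)
    · intro e _
      exact PE_nonneg A e
    · intro e _
      unfold PE
      have h1 := (single_le_sum (f := fun j => 1 / (lam A j (A e.i j) : ℚ))
        (fun j _ => by positivity) (mem_univ e.j)).trans (h e.i)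
      have h2 : (1 : ℚ) ≤ lam A e.k (A e.i e.k) := by exact_mod_cast lam_pos A e.k e.i
      have h3 : (0 : ℚ) < lam A e.j (A e.i e.j) := by exact_mod_cast lam_pos A e.j e.i
      have h4 : 1 / ((lam A e.j (A e.i e.j) : ℚ) * lam A e.k (A e.i e.k)) ≤
          1 / (lam A e.j (A e.i e.j) : ℚ) := by
        apply one_div_le_one_div_of_le h3
        nlinarith
      linarith
    · intro e he T hTE hd _
      have h1 := count_le A sig ((mE e).1 he) T (by
        intro f hf hc
        exact disjoint_left.1 hd hf (mem_filter.2 ⟨hTE hf, hc⟩))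
      have h2 : (0 : ℚ) < (lam A e.j (A e.i e.j) : ℚ) * lam A e.k (A e.i e.k) := by
        exact_mod_cast Nat.mul_pos (lam_pos A e.j e.i) (lam_pos A e.k e.i)
      have h3 : ((av (confs A) BE T ∩ BE e).card : ℚ) *
          ((lam A e.j (A e.i e.j) : ℚ) * lam A e.k (A e.i e.k)) ≤ (av (confs A) BE T).card := by
        exact_mod_cast h1
      unfold PE
      rw [one_div, inv_mul_eq_div, le_div_iff₀ h2]
      exact h3
    · intro e _
      exact filter_subset _ _
    · intro e he
      have hcov : nb e ⊆ (E.filter (hasD e.i e.j) ∪ E.filter (hasD e.i e.k)) ∪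
          (E.filter (hasS e.j e.r) ∪ E.filter (hasS e.k e.q)) := by
        intro f hf
        rw [hnb] at hf
        simp only [mem_filter] at hf
        obtain ⟨h1, h2⟩ := hf
        rw [hsh] at h2
        simp only [mem_union, mem_filter]
        tauto
      have nn : ∀ G : Finset (Ev R n), 0 ≤ ∑ f ∈ G, PE A f :=
        fun G => sum_nonneg (fun f _ => PE_nonneg A f)
      have un : ∀ G H : Finset (Ev R n), ∑ f ∈ G ∪ H, PE A f ≤
          ∑ f ∈ G, PE A f + ∑ f ∈ H, PE A f := by
        intro G H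
        have := sum_union_inter (s₁ := G) (s₂ := H) (f := PE A)
        have := nn (G ∩ H)
        linarith
      have h1 := sum_D A sig hsig h e.i e.j (E.filter (hasD e.i e.j))
        (fun f hf => ⟨(mE f).1 (mem_filter.1 hf).1, (mem_filter.1 hf).2⟩)
      have h2 := sum_D A sig hsig h e.i e.k (E.filter (hasD e.i e.k))
        (fun f hf => ⟨(mE f).1 (mem_filter.1 hf).1, (mem_filter.1 hf).2⟩)
      have h3 := sum_S A sig hsig h e.j e.r (E.filter (hasS e.j e.r))
        (fun f hf => ⟨(mE f).1 (mem_filter.1 hf).1, (mem_filter.1 hf).2⟩)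
      have h4 := sum_S A sig hsig h e.k e.q (E.filter (hasS e.k e.q))
        (fun f hf => ⟨(mE f).1 (mem_filter.1 hf).1, (mem_filter.1 hf).2⟩)
      have h5 : ∑ t ∈ nb e, PE A t ≤ _ :=
        sum_le_sum_of_subset_of_nonneg hcov (fun f _ _ => PE_nonneg A f)
      have h6 := un (E.filter (hasD e.i e.j) ∪ E.filter (hasD e.i e.k))
        (E.filter (hasS e.j e.r) ∪ E.filter (hasS e.k e.q))
      have h7 := un (E.filter (hasD e.i e.j)) (E.filter (hasD e.i e.k))
      have h8 := un (E.filter (hasS e.j e.r)) (E.filter (hasS e.k e.q))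
      linarith
  obtain ⟨f, hf⟩ := hne
  rw [mem_av, mem_confs] at hf
  obtain ⟨hc, hav⟩ := hf
  refine ⟨f, hc, ?_⟩
  have main : ∀ i j j' s, j < j' → sig j (f j i) = some s → sig j' (f j' i) ≠ some s := by
    intro i j j' s hlt h1 h2
    refine hav ⟨i, j, j', f j i, f j' i⟩ ?_ (mem_BE.2 ⟨rfl, rfl⟩)
    rw [mE]
    exact ⟨hlt, hc j i, hc j' i, s, h1, h2⟩
  intro i j j' s hne h1 h2
  rcases lt_or_gt_of_ne hne with h3 | h3
  · exact main i j j' s h3 h1 h2
  · exact main i j' j s h3 h2 h1

end Pool.Agent.APL86
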