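import Pool.Agent.APL86.AP

set_option autoImplicit false

/-!
# General assignment lemma

Rows `R`, classes `A i j` of the cells. `f j i = r` means: the cell `(i, j)` goes to the slot
`(j, r)`. Events are small sets of statements `f j i = r` in different columns.
-/

open Finset

namespace Pool.Agent.APL86

variable {R Y : Type*} [Fintype R] [DecidableEq R] [DecidableEq Y] {n : ℕ}

/-- the statement `f j i = r` is coded by `(j, i, r)` -/
abbrev Tr (R : Type*) (n : ℕ) := Fin n × R × R

/-- the configurations in the event `e` -/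
def BG (e : Finset (Tr R n)) : Finset (Fin n → Equiv.Perm R) :=
  univ.filter (fun f => ∀ t ∈ e, f t.1 t.2.1 = t.2.2)

lemma mem_BG {e : Finset (Tr R n)} {f : Fin n → Equiv.Perm R} :
    f ∈ BG e ↔ ∀ t ∈ e, f t.1 t.2.1 = t.2.2 := by
  unfold BG
  simp

/-- the probability of an event -/
def PG (A : R → Fin n → Y) (e : Finset (Tr R n)) : ℚ :=
  ∏ t ∈ e, 1 / (lam A t.1 (A t.2.1 t.1) : ℚ)

omit [DecidableEq R] in
lemma PG_nonneg (A : R → Fin n → Y) (e : Finset (Tr R n)) : 0 ≤ PG A e := by
  unfold PG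
  apply prod_nonneg
  intro t _
  positivity

lemma step_card (A : R → Fin n → Y) {X Z : Finset (Fin n → Equiv.Perm R)} {l : Fin n} {i r : R}
    (hX : ∀ f ∈ X, f l i = r)
    (h : ∀ f ∈ X, ∀ y ∈ cls A l (A r l), Function.update f l (Equiv.swap r y * f l) ∈ Z) :
    X.card * lam A l (A r l) ≤ Z.card := by
  unfold lam
  rw [← card_product]
  apply card_le_card_of_injOn (fun p => Function.update p.1 l (Equiv.swap r p.2 * p.1 l))
  · intro p hp
    rw [mem_coe, mem_product] at hp
    exact h p.1 hp.1 p.2 hp.2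
  · intro p hp p' hp' hpp
    rw [mem_coe, mem_product] at hp hp'
    simp only at hpp
    have e1 : Equiv.swap r p.2 * p.1 l = Equiv.swap r p'.2 * p'.1 l := by
      have := congrFun hpp l
      rwa [Function.update_self, Function.update_self] at this
    have x1 : p.2 = p'.2 := by
      have := congrArg (fun g : Equiv.Perm R => g i) e1
      simp only [Equiv.Perm.mul_apply] at this
      rwa [hX _ hp.1, hX _ hp'.1, Equiv.swap_apply_left, Equiv.swap_apply_left] at this
    have f1 : p.1 = p'.1 := by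
      funext l'
      by_cases h1 : l' = l
      · subst h1
        rw [x1] at e1
        exact mul_left_cancel e1
      · have := congrFun hpp l'
        rwa [Function.update_of_ne h1, Function.update_of_ne h1] at this
    exact Prod.ext f1 x1

/-- the counting inequality -/
lemma countG (A : R → Fin n → Y) (T : Finset (Finset (Tr R n))) (e : Finset (Tr R n)) :
    (∀ t ∈ e, ∀ t' ∈ e, t.1 = t'.1 → t = t') →
    (∀ t ∈ e, A t.2.1 t.1 = A t.2.2 t.1) →
    (∀ g ∈ T, ∀ t ∈ e, ∀ u ∈ g, t.1 = u.1 → t.2.1 ≠ u.2.1 ∧ t.2.2 ≠ u.2.2) →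
    ((av (confs A) BG T ∩ BG e).card : ℚ) ≤ PG A e * (av (confs A) BG T).card := by
  induction e using Finset.induction_on with
  | empty =>
    intro _ _ _
    unfold PG
    rw [prod_empty, one_mul]
    exact_mod_cast card_le_card inter_subset_left
  | insert t e hte ih =>
    intro hcol hcl hT
    have h1 := ih (fun a ha b hb => hcol a (mem_insert_of_mem ha) b (mem_insert_of_mem hb))
      (fun a ha => hcl a (mem_insert_of_mem ha))
      (fun g hg a ha => hT g hg a (mem_insert_of_mem ha))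
    have h2 : (av (confs A) BG T ∩ BG (insert t e)).card * lam A t.1 (A t.2.2 t.1) ≤
        (av (confs A) BG T ∩ BG e).card := by
      apply step_card A (i := t.2.1)
      · intro f hf
        rw [mem_inter, mem_BG] at hf
        exact hf.2 t (mem_insert_self t e)
      · intro f hf y hy
        rw [mem_inter, mem_BG, mem_av, mem_confs] at hf
        obtain ⟨⟨hc, hav⟩, hB⟩ := hf
        rw [mem_cls] at hy
        rw [mem_inter, mem_BG, mem_av, mem_confs]
        refine ⟨⟨?_, ?_⟩, ?_⟩
        · intro l i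
          by_cases hl : l = t.1
          · subst hl
            rw [Function.update_self, Equiv.Perm.mul_apply, swap_sym hy, hc]
          · rw [Function.update_of_ne hl]
            exact hc l i
        · intro g hg hBg
          apply hav g hg
          rw [mem_BG] at hBg ⊢
          intro u hu
          have h3 := hBg u hu
          by_cases hl : u.1 = t.1
          · obtain ⟨h4, h5⟩ := hT g hg t (mem_insert_self t e) u hu hl.symm
            rw [hl, Function.update_self, Equiv.Perm.mul_apply] at h3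
            rw [hl]
            exact swap_step (hB t (mem_insert_self t e)) h4.symm h5.symm h3
          · rwa [Function.update_of_ne hl] at h3
        · intro u hu
          have hl : u.1 ≠ t.1 := by
            intro hl
            have := hcol u (mem_insert_of_mem hu) t (mem_insert_self t e) hl
            exact hte (this ▸ hu)
          rw [Function.update_of_ne hl]
          exact hB u (mem_insert_of_mem hu)
    have h3 : PG A (insert t e) = 1 / (lam A t.1 (A t.2.1 t.1) : ℚ) * PG A e := by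
      unfold PG
      rw [prod_insert hte]
    rw [h3, hcl t (mem_insert_self t e)]
    have h4 : (0 : ℚ) < lam A t.1 (A t.2.2 t.1) := by exact_mod_cast lam_pos A t.1 t.2.2
    have h5 : ((av (confs A) BG T ∩ BG (insert t e)).card : ℚ) * lam A t.1 (A t.2.2 t.1) ≤
        (av (confs A) BG T ∩ BG e).card := by exact_mod_cast h2
    rw [mul_assoc, one_div, inv_mul_eq_div, le_div_iff₀ h4]
    exact h5.trans h1

lemma sum_biUnion_le_sum {α β : Type*} [DecidableEq α] [DecidableEq β] (s : Finset α)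
    (t : α → Finset β) (f : β → ℚ) (hf : ∀ b, 0 ≤ f b) :
    ∑ b ∈ s.biUnion t, f b ≤ ∑ a ∈ s, ∑ b ∈ t a, f b := by
  induction s using Finset.induction_on with
  | empty => simp
  | insert a s ha ih =>
    rw [biUnion_insert, sum_insert ha]
    have h1 : ∑ b ∈ t a ∪ s.biUnion t, f b ≤ ∑ b ∈ t a, f b + ∑ b ∈ s.biUnion t, f b := by
      rw [← sum_union_inter]
      have : 0 ≤ ∑ b ∈ t a ∩ s.biUnion t, f b := sum_nonneg fun b _ => hf b
      linarith
    linarith

/-- General assignment lemma. -/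
theorem assign (A : R → Fin n → Y) (E : Finset (Finset (Tr R n))) (a b : ℚ) (hab : a + b ≤ 1 / 8)
    (hne : ∀ e ∈ E, e.Nonempty) (hc2 : ∀ e ∈ E, e.card ≤ 2)
    (hcol : ∀ e ∈ E, ∀ t ∈ e, ∀ t' ∈ e, t.1 = t'.1 → t = t')
    (hcl : ∀ e ∈ E, ∀ t ∈ e, A t.2.1 t.1 = A t.2.2 t.1)
    (hD : ∀ j i, ∑ e ∈ E.filter (fun e => ∃ t ∈ e, t.1 = j ∧ t.2.1 = i), PG A e ≤ a)
    (hS : ∀ j r, ∑ e ∈ E.filter (fun e => ∃ t ∈ e, t.1 = j ∧ t.2.2 = r), PG A e ≤ b) :
    ∃ f : Fin n → Equiv.Perm R, (∀ j i, A (f j i) j = A i j) ∧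
      ∀ e ∈ E, ∃ t ∈ e, f t.1 t.2.1 ≠ t.2.2 := by
  classical
  let nb : Finset (Tr R n) → Finset (Finset (Tr R n)) := fun e => E.filter (fun g =>
    ∃ t ∈ e, ∃ u ∈ g, t.1 = u.1 ∧ (t.2.1 = u.2.1 ∨ t.2.2 = u.2.2))
  have hP : ∀ e ∈ E, PG A e ≤ 1 / 16 := by
    intro e he
    obtain ⟨t, ht⟩ := hne e he
    have h1 : PG A e ≤ a := by
      refine le_trans ?_ (hD t.1 t.2.1)
      exact single_le_sum (f := PG A) (fun g _ => PG_nonneg A g)
        (mem_filter.2 ⟨he, t, ht, rfl, rfl⟩)
    have h2 : PG A e ≤ b := by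
      refine le_trans ?_ (hS t.1 t.2.2)
      exact single_le_sum (f := PG A) (fun g _ => PG_nonneg A g)
        (mem_filter.2 ⟨he, t, ht, rfl, rfl⟩)
    linarith
  have hne' : (av (confs A) BG E).Nonempty := by
    refine lopsided (confs A) ⟨fun _ => 1, ?_⟩ BG E nb (PG A) (fun e _ => PG_nonneg A e)
      (fun e he => lt_of_le_of_lt (hP e he) (by norm_num)) ?_ (fun e _ => filter_subset _ _) ?_
    · rw [mem_confs]
      intro j i
      simp
    · intro e he T hTE hdis _
      refine countG A T e (hcol e he) (hcl e he) ?_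
      intro g hg t ht u hu htu
      have h1 : g ∉ nb e := fun h => (Finset.disjoint_left.1 hdis) hg h
      have h2 : ¬ ∃ t ∈ e, ∃ u ∈ g, t.1 = u.1 ∧ (t.2.1 = u.2.1 ∨ t.2.2 = u.2.2) :=
        fun h => h1 (mem_filter.2 ⟨hTE hg, h⟩)
      exact ⟨fun h => h2 ⟨t, ht, u, hu, htu, Or.inl h⟩, fun h => h2 ⟨t, ht, u, hu, htu, Or.inr h⟩⟩
    · intro e he
      have hsub : nb e ⊆ e.biUnion (fun t =>
          E.filter (fun g => ∃ u ∈ g, u.1 = t.1 ∧ u.2.1 = t.2.1) ∪
          E.filter (fun g => ∃ u ∈ g, u.1 = t.1 ∧ u.2.2 = t.2.2)) := by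
        intro g hg
        obtain ⟨hgE, t, ht, u, hu, h1, h2⟩ := mem_filter.1 hg
        rw [mem_biUnion]
        refine ⟨t, ht, ?_⟩
        rw [mem_union, mem_filter, mem_filter]
        rcases h2 with h2 | h2
        · exact Or.inl ⟨hgE, u, hu, h1.symm, h2.symm⟩
        · exact Or.inr ⟨hgE, u, hu, h1.symm, h2.symm⟩
      calc ∑ g ∈ nb e, PG A g
          ≤ ∑ g ∈ e.biUnion (fun t =>
              E.filter (fun g => ∃ u ∈ g, u.1 = t.1 ∧ u.2.1 = t.2.1) ∪
              E.filter (fun g => ∃ u ∈ g, u.1 = t.1 ∧ u.2.2 = t.2.2)), PG A g :=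
            sum_le_sum_of_subset_of_nonneg hsub fun g _ _ => PG_nonneg A g
        _ ≤ ∑ t ∈ e, ∑ g ∈ (E.filter (fun g => ∃ u ∈ g, u.1 = t.1 ∧ u.2.1 = t.2.1) ∪
              E.filter (fun g => ∃ u ∈ g, u.1 = t.1 ∧ u.2.2 = t.2.2)), PG A g :=
            sum_biUnion_le_sum _ _ _ (fun g => PG_nonneg A g)
        _ ≤ ∑ _t ∈ e, (1 / 8 : ℚ) := by
            apply sum_le_sum
            intro t _
            have h1 : ∑ g ∈ (E.filter (fun g => ∃ u ∈ g, u.1 = t.1 ∧ u.2.1 = t.2.1) ∪
                E.filter (fun g => ∃ u ∈ g, u.1 = t.1 ∧ u.2.2 = t.2.2)), PG A g ≤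
                ∑ g ∈ (E.filter (fun g => ∃ u ∈ g, u.1 = t.1 ∧ u.2.1 = t.2.1)), PG A g +
                ∑ g ∈ (E.filter (fun g => ∃ u ∈ g, u.1 = t.1 ∧ u.2.2 = t.2.2)), PG A g := by
              rw [← sum_union_inter]
              have : 0 ≤ ∑ g ∈ (E.filter (fun g => ∃ u ∈ g, u.1 = t.1 ∧ u.2.1 = t.2.1) ∩
                E.filter (fun g => ∃ u ∈ g, u.1 = t.1 ∧ u.2.2 = t.2.2)), PG A g :=
                sum_nonneg fun g _ => PG_nonneg A g
              linarith
            have h2 := hD t.1 t.2.1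
            have h3 := hS t.1 t.2.2
            linarith
        _ = (e.card : ℚ) * (1 / 8) := by rw [sum_const, nsmul_eq_mul]
        _ ≤ 2 * (1 / 8) := by
            have : (e.card : ℚ) ≤ 2 := by exact_mod_cast hc2 e he
            linarith
        _ = 1 / 4 := by norm_num
  obtain ⟨f, hf⟩ := hne'
  rw [mem_av, mem_confs] at hf
  refine ⟨f, hf.1, fun e he => ?_⟩
  have h1 := hf.2 e he
  rw [mem_BG] at h1
  push Not at h1
  exact h1

end Pool.Agent.APL86
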