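import Mathlib

set_option autoImplicit false

/-!
# Lopsided local lemma, counting form

`W` finite set of configurations, events `B e` for `e ∈ E`, neighbours `nb e`, numbers `P e < 1/2`,
`∑_{t ∈ nb e} P t ≤ 1/4`, and for every `T ⊆ E` without neighbours of `e`, `e ∉ T`:
`#(av T ∩ B e) ≤ P e * #(av T)`. Then `av E` is not empty.
-/

open Finset

namespace Pool.Agent.APL86

variable {Ω J : Type*} [DecidableEq Ω] [DecidableEq J]

/-- configurations of `W` avoiding all events of `T` -/
def av (W : Finset Ω) (B : J → Finset Ω) (T : Finset J) : Finset Ω :=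
  W.filter (fun ω => ∀ t ∈ T, ω ∉ B t)

omit [DecidableEq J] in
lemma mem_av {W : Finset Ω} {B : J → Finset Ω} {T : Finset J} {ω : Ω} :
    ω ∈ av W B T ↔ ω ∈ W ∧ ∀ t ∈ T, ω ∉ B t := by
  unfold av
  rw [mem_filter]

omit [DecidableEq J] in
lemma av_anti {W : Finset Ω} {B : J → Finset Ω} {T T' : Finset J} (h : T' ⊆ T) :
    av W B T ⊆ av W B T' := by
  intro ω hω
  rw [mem_av] at hω ⊢
  exact ⟨hω.1, fun t ht => hω.2 t (h ht)⟩

lemma av_insert_eq {W : Finset Ω} {B : J → Finset Ω} {T : Finset J} {t : J} :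
    av W B (insert t T) = av W B T \ B t := by
  ext ω
  rw [mem_sdiff, mem_av, mem_av]
  constructor
  · rintro ⟨h1, h2⟩
    exact ⟨⟨h1, fun s hs => h2 s (mem_insert_of_mem hs)⟩, h2 t (mem_insert_self t T)⟩
  · rintro ⟨⟨h1, h2⟩, h3⟩
    refine ⟨h1, fun s hs => ?_⟩
    rcases mem_insert.1 hs with rfl | hs
    · exact h3
    · exact h2 s hs

/-- the conditional probabilities are at most `2 P` -/
theorem claim (W : Finset Ω) (B : J → Finset Ω) (E : Finset J) (nb : J → Finset J) (P : J → ℚ)
    (hP0 : ∀ j ∈ E, 0 ≤ P j)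
    (hl : ∀ j ∈ E, ∀ T ⊆ E, Disjoint T (nb j) → j ∉ T →
      ((av W B T ∩ B j).card : ℚ) ≤ P j * (av W B T).card)
    (hnb : ∀ j ∈ E, nb j ⊆ E)
    (hs : ∀ j ∈ E, ∑ t ∈ nb j, P t ≤ 1 / 4) :
    ∀ (m : ℕ) (T : Finset J), T.card = m → T ⊆ E → ∀ j ∈ E, j ∉ T →
      ((av W B T ∩ B j).card : ℚ) ≤ 2 * P j * (av W B T).card := by
  intro m
  induction m using Nat.strong_induction_on with
  | _ m ih =>
    intro T hT hTE j hj hjT
    obtain ⟨T1, hT1⟩ : ∃ T1, T1 = T ∩ nb j := ⟨_, rfl⟩
    obtain ⟨T2, hT2⟩ : ∃ T2, T2 = T \ nb j := ⟨_, rfl⟩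
    have hT2T : T2 ⊆ T := by rw [hT2]; exact sdiff_subset
    have hd : Disjoint T2 (nb j) := by rw [hT2]; exact sdiff_disjoint
    have hj2 : j ∉ T2 := fun h => hjT (hT2T h)
    have h1 := hl j hj T2 (hT2T.trans hTE) hd hj2
    have h2 : ((av W B T ∩ B j).card : ℚ) ≤ (av W B T2 ∩ B j).card := by
      exact_mod_cast card_le_card (inter_subset_inter_right (av_anti hT2T))
    have h3 : ((av W B T2).card : ℚ) ≤ 2 * (av W B T).card := by
      rcases T1.eq_empty_or_nonempty with h0 | hne
      · have : T2 = T := by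
          rw [hT2]
          exact Finset.sdiff_eq_self_iff_disjoint.2 (Finset.disjoint_iff_inter_eq_empty.2 (hT1 ▸ h0))
        rw [this]
        have : (0 : ℚ) ≤ (av W B T).card := by positivity
        linarith
      · have hlt : T2.card < m := by
          rw [← hT]
          apply card_lt_card
          refine ⟨hT2T, fun hsub => ?_⟩
          obtain ⟨t, ht⟩ := hne
          rw [hT1, mem_inter] at ht
          have := hsub ht.1
          rw [hT2, mem_sdiff] at this
          exact this.2 ht.2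
        have h4 : av W B T2 ⊆ av W B T ∪ T1.biUnion (fun t => av W B T2 ∩ B t) := by
          intro ω hω
          by_cases hc : ∃ t ∈ T1, ω ∈ B t
          · obtain ⟨t, ht, hb⟩ := hc
            exact mem_union_right _ (mem_biUnion.2 ⟨t, ht, mem_inter.2 ⟨hω, hb⟩⟩)
          · apply mem_union_left
            rw [mem_av] at hω ⊢
            refine ⟨hω.1, fun t ht hb => ?_⟩
            by_cases htn : t ∈ nb j
            · exact hc ⟨t, by rw [hT1]; exact mem_inter.2 ⟨ht, htn⟩, hb⟩
            · exact hω.2 t (by rw [hT2]; exact mem_sdiff.2 ⟨ht, htn⟩) hb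
        have h5 : ((av W B T2).card : ℚ) ≤ (av W B T).card +
            ∑ t ∈ T1, ((av W B T2 ∩ B t).card : ℚ) := by
          have := (card_le_card h4).trans ((card_union_le _ _).trans
            (Nat.add_le_add_left card_biUnion_le _))
          exact_mod_cast this
        have h6 : ∑ t ∈ T1, ((av W B T2 ∩ B t).card : ℚ) ≤
            ∑ t ∈ T1, 2 * P t * (av W B T2).card := by
          apply sum_le_sum
          intro t ht
          rw [hT1, mem_inter] at ht
          refine ih _ hlt T2 rfl (hT2T.trans hTE) t (hTE ht.1) ?_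
          rw [hT2, mem_sdiff]
          exact fun h => h.2 ht.2
        have h7 : ∑ t ∈ T1, P t ≤ 1 / 4 := by
          refine (sum_le_sum_of_subset_of_nonneg (s := T1) (t := nb j) ?_ ?_).trans (hs j hj)
          · rw [hT1]; exact inter_subset_right
          · intro t ht _
            exact hP0 t (hnb j hj ht)
        have h8 : ∑ t ∈ T1, 2 * P t * ((av W B T2).card : ℚ) =
            2 * (∑ t ∈ T1, P t) * (av W B T2).card := by
          rw [mul_sum, sum_mul]
        have h9 : (0 : ℚ) ≤ (av W B T2).card := by positivity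
        nlinarith
    have h10 := hP0 j hj
    calc ((av W B T ∩ B j).card : ℚ) ≤ P j * (av W B T2).card := h2.trans h1
      _ ≤ P j * (2 * (av W B T).card) := mul_le_mul_of_nonneg_left h3 h10
      _ = 2 * P j * (av W B T).card := by ring

/-- lopsided local lemma -/
theorem lopsided (W : Finset Ω) (hW : W.Nonempty) (B : J → Finset Ω) (E : Finset J)
    (nb : J → Finset J) (P : J → ℚ) (hP0 : ∀ j ∈ E, 0 ≤ P j) (hP : ∀ j ∈ E, P j < 1 / 2)
    (hl : ∀ j ∈ E, ∀ T ⊆ E, Disjoint T (nb j) → j ∉ T →
      ((av W B T ∩ B j).card : ℚ) ≤ P j * (av W B T).card)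
    (hnb : ∀ j ∈ E, nb j ⊆ E)
    (hs : ∀ j ∈ E, ∑ t ∈ nb j, P t ≤ 1 / 4) : (av W B E).Nonempty := by
  suffices h : ∀ T ⊆ E, (0 : ℚ) < (av W B T).card by
    exact card_pos.1 (by exact_mod_cast h E (Subset.refl E))
  intro T
  induction T using Finset.induction_on with
  | empty =>
    intro _
    have : av W B ∅ = W := by
      ext ω
      rw [mem_av]
      simp
    rw [this]
    exact_mod_cast card_pos.2 hW
  | insert t T ht ih =>
    intro hTE
    have hTE' : T ⊆ E := fun x hx => hTE (mem_insert_of_mem hx)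
    have htE : t ∈ E := hTE (mem_insert_self t T)
    have h0 := ih hTE'
    have h1 := claim W B E nb P hP0 hl hnb hs T.card T rfl hTE' t htE ht
    rw [av_insert_eq]
    have h2 : ((av W B T \ B t).card : ℚ) = (av W B T).card - (av W B T ∩ B t).card := by
      have := card_sdiff_add_card_inter (av W B T) (B t)
      rw [eq_sub_iff_add_eq]
      exact_mod_cast this
    rw [h2]
    have h3 := hP t htE
    nlinarith

end Pool.Agent.APL86
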