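import Pool.Agent.APL86.Gen

set_option autoImplicit false
set_option linter.unusedSectionVars false

/-!
# Reassignment lemma (helper61, lem_ans 793 (4))

Rows `R`, real symbols `A i j`, classes `cl i j` (`some z`: typed, `none`: wild). Slots `(j, r)`
belong to sections (`sig`); a wild slot of the section `s` must not receive a cell whose symbol
satisfies `Fb s`.
-/

open Finset

namespace Pool.Agent.APL86

variable {R S Sec : Type*} [Fintype R] [DecidableEq R] [DecidableEq S] {n : ℕ}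

lemma sum_le_of_rel {α β : Type*} [DecidableEq β] (F : Finset α) (P : Finset β) (w : α → ℚ)
    (g : β → ℚ) (hg : ∀ p ∈ P, 0 ≤ g p) (rel : α → β → Prop)
    (hex : ∀ e ∈ F, ∃ p ∈ P, rel e p ∧ w e ≤ g p)
    (huniq : ∀ e ∈ F, ∀ e' ∈ F, ∀ p, rel e p → rel e' p → e = e') :
    ∑ e ∈ F, w e ≤ ∑ p ∈ P, g p := by
  classical
  have hex' : ∀ e : F, ∃ p ∈ P, rel e p ∧ w e ≤ g p := fun e => hex e e.2
  choose φ h1 h2 h3 using hex'
  have hinj : Function.Injective φ := by
    intro e e' h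
    exact Subtype.ext (huniq e e.2 e' e'.2 (φ e) (h2 e) (h ▸ h2 e'))
  calc ∑ e ∈ F, w e = ∑ e : F, w e := (sum_coe_sort F w).symm
    _ ≤ ∑ e : F, g (φ e) := sum_le_sum fun e _ => h3 e
    _ = ∑ p ∈ (univ : Finset F).image φ, g p := by
        rw [sum_image fun a _ b _ h => hinj h]
    _ ≤ ∑ p ∈ P, g p := by
        apply sum_le_sum_of_subset_of_nonneg
        · intro p hp
          obtain ⟨e, -, rfl⟩ := mem_image.1 hp
          exact h1 e
        · intro p hp _
          exact hg p hp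

/-- two cells of one row in one section -/
def E1p (cl : R → Fin n → Option S) (sig : Fin n → R → Option Sec) (e : Finset (Tr R n)) : Prop :=
  ∃ j k i r q s, j ≠ k ∧ cl i j = cl r j ∧ cl i k = cl q k ∧ sig j r = some s ∧
    sig k q = some s ∧ e = {(j, i, r), (k, i, q)}

/-- two wild cells with the same symbol in one section -/
def E2p (A : R → Fin n → S) (cl : R → Fin n → Option S) (sig : Fin n → R → Option Sec)
    (e : Finset (Tr R n)) : Prop :=
  ∃ j k i i' r q s, j ≠ k ∧ cl i j = none ∧ cl r j = none ∧ cl i' k = none ∧ cl q k = none ∧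
    A i j = A i' k ∧ sig j r = some s ∧ sig k q = some s ∧ e = {(j, i, r), (k, i', q)}

/-- a wild cell in a section with its symbol -/
def E3p (A : R → Fin n → S) (cl : R → Fin n → Option S) (sig : Fin n → R → Option Sec)
    (Fb : Sec → S → Prop) (e : Finset (Tr R n)) : Prop :=
  ∃ j i r s, cl i j = none ∧ cl r j = none ∧ sig j r = some s ∧ Fb s (A i j) ∧
    e = {(j, i, r)}

lemma PG_pair {Y : Type*} [DecidableEq Y] (cl : R → Fin n → Y) {j k : Fin n} (hjk : j ≠ k)
    (i i' r q : R) : PG cl ({(j, i, r), (k, i', q)} : Finset (Tr R n)) =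
      1 / (lam cl j (cl i j) : ℚ) * (1 / (lam cl k (cl i' k) : ℚ)) := by
  unfold PG
  rw [prod_pair]
  intro h
  exact hjk (congrArg Prod.fst h)

lemma PG_one {Y : Type*} [DecidableEq Y] (cl : R → Fin n → Y) (j : Fin n) (i r : R) :
    PG cl ({(j, i, r)} : Finset (Tr R n)) = 1 / (lam cl j (cl i j) : ℚ) := by
  unfold PG
  rw [prod_singleton]

section sums

variable {A : R → Fin n → S} {cl : R → Fin n → Option S} {sig : Fin n → R → Option Sec}
  {Fb : Sec → S → Prop} {eps : ℚ}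

/-- E1 through a cell -/
lemma sum1D (hsig : ∀ j r r' s, sig j r = some s → sig j r' = some s → r = r')
    (h1 : ∀ i, ∑ j, 1 / (lam cl j (cl i j) : ℚ) ≤ 1 / 32) (j : Fin n) (i : R)
    (F : Finset (Finset (Tr R n)))
    (hF : ∀ e ∈ F, E1p cl sig e ∧ ∃ t ∈ e, t.1 = j ∧ t.2.1 = i) :
    ∑ e ∈ F, PG cl e ≤ 1 / 32 := by
  classical
  have key : ∀ e ∈ F, ∃ k r q s, j ≠ k ∧ cl i j = cl r j ∧ cl i k = cl q k ∧ sig j r = some s ∧
      sig k q = some s ∧ e = {(j, i, r), (k, i, q)} := by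
    intro e he
    obtain ⟨⟨j', k', i', r', q', s, h2, h3, h4, h5, h6, h7⟩, t, ht, ht1, ht2⟩ := hF e he
    rw [h7, mem_insert, mem_singleton] at ht
    rcases ht with ht | ht
    · subst ht
      simp only at ht1 ht2
      subst ht1 ht2
      exact ⟨k', r', q', s, h2, h3, h4, h5, h6, h7⟩
    · subst ht
      simp only at ht1 ht2
      subst ht1 ht2
      exact ⟨j', q', r', s, h2.symm, h4, h3, h6, h5, by rw [h7, pair_comm]⟩
  refine (sum_le_of_rel F ((cls cl j (cl i j)) ×ˢ (univ : Finset (Fin n))) (PG cl)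
    (fun p => 1 / (lam cl j (cl i j) : ℚ) * (1 / (lam cl p.2 (cl i p.2) : ℚ))) ?_
    (fun e p => j ≠ p.2 ∧ ∃ q s, sig j p.1 = some s ∧ sig p.2 q = some s ∧
      e = {(j, i, p.1), (p.2, i, q)}) ?_ ?_).trans ?_
  · intro p _
    positivity
  · intro e he
    obtain ⟨k, r, q, s, h2, h3, h4, h5, h6, h7⟩ := key e he
    refine ⟨(r, k), ?_, ⟨h2, q, s, h5, h6, h7⟩, ?_⟩
    · rw [mem_product, mem_cls]
      exact ⟨h3.symm, mem_univ _⟩
    · rw [h7, PG_pair cl h2]
  · rintro e he e' he' ⟨r, k⟩ ⟨h2, q, s, h3, h4, h5⟩ ⟨-, q', s', h3', h4', h5'⟩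
    simp only at h3 h4 h5 h3' h4' h5'
    have h6 : s = s' := Option.some_injective _ (h3.symm.trans h3')
    subst h6
    rw [h5, h5', hsig k q q' s h4 h4']
  · rw [sum_product]
    have h2 : (lam cl j (cl i j) : ℚ) ≠ 0 := by exact_mod_cast (lam_pos cl j i).ne'
    have h3 : ∀ x ∈ cls cl j (cl i j), ∑ y : Fin n, 1 / (lam cl j (cl i j) : ℚ) *
        (1 / (lam cl y (cl i y) : ℚ)) ≤ 1 / (lam cl j (cl i j) : ℚ) * (1 / 32) := by
      intro x _
      rw [← mul_sum]
      exact mul_le_mul_of_nonneg_left (h1 i) (by positivity)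
    refine (sum_le_sum h3).trans ?_
    rw [sum_const, nsmul_eq_mul]
    have h4 : ((cls cl j (cl i j)).card : ℚ) = lam cl j (cl i j) := rfl
    rw [h4, ← mul_assoc, mul_one_div_cancel h2, one_mul]

/-- E1 through a slot -/
lemma sum1S (hsig : ∀ j r r' s, sig j r = some s → sig j r' = some s → r = r')
    (h1 : ∀ i, ∑ j, 1 / (lam cl j (cl i j) : ℚ) ≤ 1 / 32) (j : Fin n) (r : R)
    (F : Finset (Finset (Tr R n)))
    (hF : ∀ e ∈ F, E1p cl sig e ∧ ∃ t ∈ e, t.1 = j ∧ t.2.2 = r) :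
    ∑ e ∈ F, PG cl e ≤ 1 / 32 := by
  classical
  have key : ∀ e ∈ F, ∃ k i q s, j ≠ k ∧ cl i j = cl r j ∧ cl i k = cl q k ∧ sig j r = some s ∧
      sig k q = some s ∧ e = {(j, i, r), (k, i, q)} := by
    intro e he
    obtain ⟨⟨j', k', i', r', q', s, h2, h3, h4, h5, h6, h7⟩, t, ht, ht1, ht2⟩ := hF e he
    rw [h7, mem_insert, mem_singleton] at ht
    rcases ht with ht | ht
    · subst ht
      simp only at ht1 ht2
      subst ht1 ht2
      exact ⟨k', i', q', s, h2, h3, h4, h5, h6, h7⟩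
    · subst ht
      simp only at ht1 ht2
      subst ht1 ht2
      exact ⟨j', i', r', s, h2.symm, h4, h3, h6, h5, by rw [h7, pair_comm]⟩
  refine (sum_le_of_rel F ((cls cl j (cl r j)) ×ˢ (univ : Finset (Fin n))) (PG cl)
    (fun p => 1 / (lam cl j (cl r j) : ℚ) * (1 / (lam cl p.2 (cl p.1 p.2) : ℚ))) ?_
    (fun e p => j ≠ p.2 ∧ ∃ q s, sig j r = some s ∧ sig p.2 q = some s ∧
      e = {(j, p.1, r), (p.2, p.1, q)}) ?_ ?_).trans ?_
  · intro p _
    positivity
  · intro e he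
    obtain ⟨k, i, q, s, h2, h3, h4, h5, h6, h7⟩ := key e he
    refine ⟨(i, k), ?_, ⟨h2, q, s, h5, h6, h7⟩, ?_⟩
    · rw [mem_product, mem_cls]
      exact ⟨h3, mem_univ _⟩
    · rw [h7, PG_pair cl h2, h3]
  · rintro e he e' he' ⟨i, k⟩ ⟨h2, q, s, h3, h4, h5⟩ ⟨-, q', s', h3', h4', h5'⟩
    simp only at h3 h4 h5 h3' h4' h5'
    have h6 : s = s' := Option.some_injective _ (h3.symm.trans h3')
    subst h6
    rw [h5, h5', hsig k q q' s h4 h4']
  · rw [sum_product]
    have h2 : (lam cl j (cl r j) : ℚ) ≠ 0 := by exact_mod_cast (lam_pos cl j r).ne'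
    have h3 : ∀ x ∈ cls cl j (cl r j), ∑ y : Fin n, 1 / (lam cl j (cl r j) : ℚ) *
        (1 / (lam cl y (cl x y) : ℚ)) ≤ 1 / (lam cl j (cl r j) : ℚ) * (1 / 32) := by
      intro x _
      rw [← mul_sum]
      exact mul_le_mul_of_nonneg_left (h1 x) (by positivity)
    refine (sum_le_sum h3).trans ?_
    rw [sum_const, nsmul_eq_mul]
    have h4 : ((cls cl j (cl r j)).card : ℚ) = lam cl j (cl r j) := rfl
    rw [h4, ← mul_assoc, mul_one_div_cancel h2, one_mul]

/-- the wild cells of column `k` with symbol `z` -/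
def wz (A : R → Fin n → S) (cl : R → Fin n → Option S) (k : Fin n) (z : S) : Finset R :=
  univ.filter (fun i => cl i k = none ∧ A i k = z)

lemma mem_wz {k : Fin n} {z : S} {i : R} : i ∈ wz A cl k z ↔ cl i k = none ∧ A i k = z := by
  unfold wz
  simp

/-- the common sum for E2 -/
lemma sum2 (heps : 0 ≤ eps)
    (h2 : ∀ j z, ((wz A cl j z).card : ℚ) * n ≤ eps * lam cl j none) (j : Fin n) (z : R → S) :
    ∑ x ∈ cls cl j none, ∑ k, ∑ _i' ∈ wz A cl k (z x),
      1 / (lam cl j none : ℚ) * (1 / (lam cl k none : ℚ)) ≤ eps := by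
  have hn : (0 : ℚ) < n := by exact_mod_cast (Fin.pos j)
  have h3 : ∀ x ∈ cls cl j none, ∑ k, ∑ _i' ∈ wz A cl k (z x),
      1 / (lam cl j none : ℚ) * (1 / (lam cl k none : ℚ)) ≤ 1 / (lam cl j none : ℚ) * eps := by
    intro x _
    have h4 : ∀ k ∈ (univ : Finset (Fin n)), ∑ _i' ∈ wz A cl k (z x),
        1 / (lam cl j none : ℚ) * (1 / (lam cl k none : ℚ)) ≤
          1 / (lam cl j none : ℚ) * (eps / n) := by
      intro k _
      rw [sum_const, nsmul_eq_mul, mul_left_comm]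
      apply mul_le_mul_of_nonneg_left _ (by positivity)
      have h5 := h2 k (z x)
      rcases Nat.eq_zero_or_pos (lam cl k none) with h6 | h6
      · rw [h6]
        simp only [Nat.cast_zero, div_zero, mul_zero]
        positivity
      · have h7 : (0 : ℚ) < lam cl k none := by exact_mod_cast h6
        rw [mul_one_div, div_le_div_iff₀ h7 hn]
        exact h5
    refine (sum_le_sum h4).trans ?_
    rw [sum_const, card_univ, Fintype.card_fin, nsmul_eq_mul, mul_left_comm]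
    apply mul_le_mul_of_nonneg_left _ (by positivity)
    rw [mul_div_cancel₀ _ hn.ne']
  refine (sum_le_sum h3).trans ?_
  rw [sum_const, nsmul_eq_mul]
  have h4 : ((cls cl j none).card : ℚ) = lam cl j none := rfl
  rw [h4]
  rcases Nat.eq_zero_or_pos (lam cl j none) with h6 | h6
  · rw [h6]
    simpa using heps
  · have h7 : (lam cl j none : ℚ) ≠ 0 := by exact_mod_cast h6.ne'
    rw [← mul_assoc, mul_one_div_cancel h7, one_mul]

/-- E2 through a cell -/
lemma sum2D (hsig : ∀ j r r' s, sig j r = some s → sig j r' = some s → r = r') (heps : 0 ≤ eps)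
    (h2 : ∀ j z, ((wz A cl j z).card : ℚ) * n ≤ eps * lam cl j none) (j : Fin n) (i : R)
    (F : Finset (Finset (Tr R n)))
    (hF : ∀ e ∈ F, E2p A cl sig e ∧ ∃ t ∈ e, t.1 = j ∧ t.2.1 = i) :
    ∑ e ∈ F, PG cl e ≤ eps := by
  classical
  have key : ∀ e ∈ F, ∃ k i' r q s, j ≠ k ∧ cl i j = none ∧ cl r j = none ∧ cl i' k = none ∧
      cl q k = none ∧ A i j = A i' k ∧ sig j r = some s ∧ sig k q = some s ∧
      e = {(j, i, r), (k, i', q)} := by
    intro e he
    obtain ⟨⟨j', k', i', i'', r', q', s, h3, h4, h5, h6, h7, h8, h9, h10, h11⟩, t, ht, ht1, ht2⟩ :=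
      hF e he
    rw [h11, mem_insert, mem_singleton] at ht
    rcases ht with ht | ht
    · subst ht
      simp only at ht1 ht2
      subst ht1 ht2
      exact ⟨k', i'', r', q', s, h3, h4, h5, h6, h7, h8, h9, h10, h11⟩
    · subst ht
      simp only at ht1 ht2
      subst ht1 ht2
      exact ⟨j', i', q', r', s, h3.symm, h6, h7, h4, h5, h8.symm, h10, h9, by rw [h11, pair_comm]⟩
  refine (sum_le_of_rel F ((cls cl j none) ×ˢ ((univ : Finset (Fin n)).sigma
      fun k => wz A cl k (A i j))) (PG cl)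
    (fun p => 1 / (lam cl j none : ℚ) * (1 / (lam cl p.2.1 none : ℚ))) ?_
    (fun e p => ∃ q s, sig j p.1 = some s ∧ sig p.2.1 q = some s ∧
      e = {(j, i, p.1), (p.2.1, p.2.2, q)}) ?_ ?_).trans ?_
  · intro p _
    positivity
  · intro e he
    obtain ⟨k, i', r, q, s, h3, h4, h5, h6, h7, h8, h9, h10, h11⟩ := key e he
    refine ⟨(r, ⟨k, i'⟩), ?_, ⟨q, s, h9, h10, h11⟩, ?_⟩
    · rw [mem_product, mem_cls, mem_sigma, mem_wz]
      exact ⟨h5, mem_univ _, h6, h8.symm⟩
    · rw [h11, PG_pair cl h3, h4, h6]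
  · rintro e he e' he' ⟨r, k, i'⟩ ⟨q, s, h3, h4, h5⟩ ⟨q', s', h3', h4', h5'⟩
    simp only at h3 h4 h5 h3' h4' h5'
    have h6 : s = s' := Option.some_injective _ (h3.symm.trans h3')
    subst h6
    rw [h5, h5', hsig k q q' s h4 h4']
  · rw [sum_product]
    refine le_trans (le_of_eq ?_) (sum2 heps h2 j fun _ => A i j)
    apply sum_congr rfl
    intro x _
    rw [sum_sigma]

/-- E2 through a slot -/
lemma sum2S (hsig : ∀ j r r' s, sig j r = some s → sig j r' = some s → r = r') (heps : 0 ≤ eps)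
    (h2 : ∀ j z, ((wz A cl j z).card : ℚ) * n ≤ eps * lam cl j none) (j : Fin n) (r : R)
    (F : Finset (Finset (Tr R n)))
    (hF : ∀ e ∈ F, E2p A cl sig e ∧ ∃ t ∈ e, t.1 = j ∧ t.2.2 = r) :
    ∑ e ∈ F, PG cl e ≤ eps := by
  classical
  have key : ∀ e ∈ F, ∃ k i i' q s, j ≠ k ∧ cl i j = none ∧ cl r j = none ∧ cl i' k = none ∧
      cl q k = none ∧ A i j = A i' k ∧ sig j r = some s ∧ sig k q = some s ∧
      e = {(j, i, r), (k, i', q)} := by
    intro e he
    obtain ⟨⟨j', k', i', i'', r', q', s, h3, h4, h5, h6, h7, h8, h9, h10, h11⟩, t, ht, ht1, ht2⟩ :=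
      hF e he
    rw [h11, mem_insert, mem_singleton] at ht
    rcases ht with ht | ht
    · subst ht
      simp only at ht1 ht2
      subst ht1 ht2
      exact ⟨k', i', i'', q', s, h3, h4, h5, h6, h7, h8, h9, h10, h11⟩
    · subst ht
      simp only at ht1 ht2
      subst ht1 ht2
      exact ⟨j', i'', i', r', s, h3.symm, h6, h7, h4, h5, h8.symm, h10, h9,
        by rw [h11, pair_comm]⟩
  refine (sum_le_of_rel F ((cls cl j none).sigma fun i => ((univ : Finset (Fin n)).sigma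
      fun k => wz A cl k (A i j))) (PG cl)
    (fun p => 1 / (lam cl j none : ℚ) * (1 / (lam cl p.2.1 none : ℚ))) ?_
    (fun e p => ∃ q s, sig j r = some s ∧ sig p.2.1 q = some s ∧
      e = {(j, p.1, r), (p.2.1, p.2.2, q)}) ?_ ?_).trans ?_
  · intro p _
    positivity
  · intro e he
    obtain ⟨k, i, i', q, s, h3, h4, h5, h6, h7, h8, h9, h10, h11⟩ := key e he
    refine ⟨⟨i, k, i'⟩, ?_, ⟨q, s, h9, h10, h11⟩, ?_⟩
    · rw [mem_sigma, mem_cls, mem_sigma, mem_wz]
      exact ⟨h4, mem_univ _, h6, h8.symm⟩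
    · rw [h11, PG_pair cl h3, h4, h6]
  · rintro e he e' he' ⟨i, k, i'⟩ ⟨q, s, h3, h4, h5⟩ ⟨q', s', h3', h4', h5'⟩
    simp only at h3 h4 h5 h3' h4' h5'
    have h6 : s = s' := Option.some_injective _ (h3.symm.trans h3')
    subst h6
    rw [h5, h5', hsig k q q' s h4 h4']
  · rw [sum_sigma]
    refine le_trans (le_of_eq ?_) (sum2 heps h2 j fun x => A x j)
    apply sum_congr rfl
    intro x _
    rw [sum_sigma]

open Classical in
/-- E3 through a cell -/
lemma sum3D (heps : 0 ≤ eps)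
    (h3c : ∀ j i, cl i j = none → ((univ.filter fun r => cl r j = none ∧
      ∃ s, sig j r = some s ∧ Fb s (A i j)).card : ℚ) ≤ 2 * eps * lam cl j none)
    (j : Fin n) (i : R) (F : Finset (Finset (Tr R n)))
    (hF : ∀ e ∈ F, E3p A cl sig Fb e ∧ ∃ t ∈ e, t.1 = j ∧ t.2.1 = i) :
    ∑ e ∈ F, PG cl e ≤ 2 * eps := by
  have key : ∀ e ∈ F, ∃ r s, cl i j = none ∧ cl r j = none ∧ sig j r = some s ∧ Fb s (A i j) ∧
      e = {(j, i, r)} := by
    intro e he
    obtain ⟨⟨j', i', r', s, h3, h4, h5, h6, h7⟩, t, ht, ht1, ht2⟩ := hF e he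
    rw [h7, mem_singleton] at ht
    subst ht
    simp only at ht1 ht2
    subst ht1 ht2
    exact ⟨r', s, h3, h4, h5, h6, h7⟩
  by_cases hw : cl i j = none
  · refine (sum_le_of_rel F (univ.filter fun r => cl r j = none ∧
      ∃ s, sig j r = some s ∧ Fb s (A i j)) (PG cl) (fun _ => 1 / (lam cl j none : ℚ)) ?_
      (fun e r => e = {(j, i, r)}) ?_ ?_).trans ?_
    · intro p _
      positivity
    · intro e he
      obtain ⟨r, s, h3, h4, h5, h6, h7⟩ := key e he
      refine ⟨r, mem_filter.2 ⟨mem_univ _, h4, s, h5, h6⟩, h7, ?_⟩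
      rw [h7, PG_one, h3]
    · intro e _ e' _ r h3 h4
      rw [h3, h4]
    · rw [sum_const, nsmul_eq_mul]
      have h4 : (0 : ℚ) < lam cl j none := by
        have := lam_pos cl j i
        rw [hw] at this
        exact_mod_cast this
      rw [mul_one_div, div_le_iff₀ h4]
      exact h3c j i hw
  · have : F = ∅ := by
      rw [eq_empty_iff_forall_notMem]
      intro e he
      obtain ⟨r, s, h3, -⟩ := key e he
      exact hw h3
    rw [this, sum_empty]
    positivity

open Classical in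
/-- E3 through a slot -/
lemma sum3S (heps : 0 ≤ eps)
    (h3s : ∀ j r s, cl r j = none → sig j r = some s → ((univ.filter fun i => cl i j = none ∧
      Fb s (A i j)).card : ℚ) ≤ eps * lam cl j none)
    (j : Fin n) (r : R) (F : Finset (Finset (Tr R n)))
    (hF : ∀ e ∈ F, E3p A cl sig Fb e ∧ ∃ t ∈ e, t.1 = j ∧ t.2.2 = r) :
    ∑ e ∈ F, PG cl e ≤ eps := by
  have key : ∀ e ∈ F, ∃ i s, cl i j = none ∧ cl r j = none ∧ sig j r = some s ∧ Fb s (A i j) ∧
      e = {(j, i, r)} := by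
    intro e he
    obtain ⟨⟨j', i', r', s, h3, h4, h5, h6, h7⟩, t, ht, ht1, ht2⟩ := hF e he
    rw [h7, mem_singleton] at ht
    subst ht
    simp only at ht1 ht2
    subst ht1 ht2
    exact ⟨i', s, h3, h4, h5, h6, h7⟩
  by_cases hw : cl r j = none ∧ ∃ s, sig j r = some s
  · obtain ⟨hw, s, hs⟩ := hw
    refine (sum_le_of_rel F (univ.filter fun i => cl i j = none ∧ Fb s (A i j)) (PG cl)
      (fun _ => 1 / (lam cl j none : ℚ)) ?_ (fun e i => e = {(j, i, r)}) ?_ ?_).trans ?_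
    · intro p _
      positivity
    · intro e he
      obtain ⟨i, s', h3, h4, h5, h6, h7⟩ := key e he
      have h8 : s = s' := Option.some_injective _ (hs.symm.trans h5)
      subst h8
      refine ⟨i, mem_filter.2 ⟨mem_univ _, h3, h6⟩, h7, ?_⟩
      rw [h7, PG_one, h3]
    · intro e _ e' _ r h3 h4
      rw [h3, h4]
    · rw [sum_const, nsmul_eq_mul]
      have h4 : (0 : ℚ) < lam cl j none := by
        have := lam_pos cl j r
        rw [hw] at this
        exact_mod_cast this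
      rw [mul_one_div, div_le_iff₀ h4]
      exact h3s j r s hw hs
  · have : F = ∅ := by
      rw [eq_empty_iff_forall_notMem]
      intro e he
      obtain ⟨i, s, h3, h4, h5, -⟩ := key e he
      exact hw ⟨h4, s, h5⟩
    rw [this, sum_empty]
    exact heps

end sums


/-- the bad events -/
def Bd (A : R → Fin n → S) (cl : R → Fin n → Option S) (sig : Fin n → R → Option Sec)
    (Fb : Sec → S → Prop) (e : Finset (Tr R n)) : Prop :=
  E1p cl sig e ∨ E2p A cl sig e ∨ E3p A cl sig Fb e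

section facts

variable {A : R → Fin n → S} {cl : R → Fin n → Option S} {sig : Fin n → R → Option Sec}
  {Fb : Sec → S → Prop} {e : Finset (Tr R n)}

/-- the two forms of an event -/
lemma Bd.form (h : Bd A cl sig Fb e) :
    (∃ j k i i' r q, j ≠ k ∧ cl i j = cl r j ∧ cl i' k = cl q k ∧
      e = {(j, i, r), (k, i', q)}) ∨ (∃ j i r, cl i j = cl r j ∧ e = {(j, i, r)}) := by
  rcases h with h | h | h
  · obtain ⟨j, k, i, r, q, s, hjk, h4, h5, -, -, h7⟩ := h
    exact Or.inl ⟨j, k, i, i, r, q, hjk, h4, h5, h7⟩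
  · obtain ⟨j, k, i, i', r, q, s, hjk, h4, h5, h6, h8, -, -, -, h7⟩ := h
    exact Or.inl ⟨j, k, i, i', r, q, hjk, h4.trans h5.symm, h6.trans h8.symm, h7⟩
  · obtain ⟨j, i, r, s, h4, h5, -, -, h7⟩ := h
    exact Or.inr ⟨j, i, r, h4.trans h5.symm, h7⟩

lemma Bd.nonempty (h : Bd A cl sig Fb e) : e.Nonempty := by
  rcases h.form with ⟨j, k, i, i', r, q, -, -, -, h7⟩ | ⟨j, i, r, -, h7⟩
  · exact ⟨(j, i, r), by rw [h7]; exact mem_insert_self _ _⟩
  · exact ⟨(j, i, r), by rw [h7]; exact mem_singleton_self _⟩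

lemma Bd.card_le (h : Bd A cl sig Fb e) : e.card ≤ 2 := by
  rcases h.form with ⟨j, k, i, i', r, q, -, -, -, h7⟩ | ⟨j, i, r, -, h7⟩
  · rw [h7]
    exact card_le_two
  · rw [h7, card_singleton]
    norm_num

lemma Bd.col (h : Bd A cl sig Fb e) : ∀ t ∈ e, ∀ t' ∈ e, t.1 = t'.1 → t = t' := by
  intro t ht t' ht' htt
  rcases h.form with ⟨j, k, i, i', r, q, hjk, -, -, h7⟩ | ⟨j, i, r, -, h7⟩
  · rw [h7, mem_insert, mem_singleton] at ht ht'
    rcases ht with ht | ht
    · rcases ht' with ht' | ht'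
      · rw [ht, ht']
      · rw [ht, ht'] at htt
        exact absurd htt hjk
    · rcases ht' with ht' | ht'
      · rw [ht, ht'] at htt
        exact absurd htt hjk.symm
      · rw [ht, ht']
  · rw [h7, mem_singleton] at ht ht'
    rw [ht, ht']

lemma Bd.cls (h : Bd A cl sig Fb e) : ∀ t ∈ e, cl t.2.1 t.1 = cl t.2.2 t.1 := by
  intro t ht
  rcases h.form with ⟨j, k, i, i', r, q, hjk, h4, h5, h7⟩ | ⟨j, i, r, h4, h7⟩
  · rw [h7, mem_insert, mem_singleton] at ht
    rcases ht with ht | ht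
    · rw [ht]
      exact h4
    · rw [ht]
      exact h5
  · rw [h7, mem_singleton] at ht
    rw [ht]
    exact h4

open Classical in
lemma split_sum (p : Finset (Tr R n) → Prop) (a b c : ℚ)
    (ha : ∀ F : Finset (Finset (Tr R n)), (∀ e ∈ F, E1p cl sig e ∧ p e) → ∑ e ∈ F, PG cl e ≤ a)
    (hb : ∀ F : Finset (Finset (Tr R n)), (∀ e ∈ F, E2p A cl sig e ∧ p e) → ∑ e ∈ F, PG cl e ≤ b)
    (hc : ∀ F : Finset (Finset (Tr R n)), (∀ e ∈ F, E3p A cl sig Fb e ∧ p e) →
      ∑ e ∈ F, PG cl e ≤ c) (F : Finset (Finset (Tr R n)))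
    (hF : ∀ e ∈ F, Bd A cl sig Fb e ∧ p e) :
    ∑ e ∈ F, PG cl e ≤ a + b + c := by
  have h5 : F ⊆ ((F.filter fun e => E1p cl sig e) ∪ (F.filter fun e => E2p A cl sig e)) ∪
      (F.filter fun e => E3p A cl sig Fb e) := by
    intro e he
    rw [mem_union, mem_union, mem_filter, mem_filter, mem_filter]
    rcases (hF e he).1 with h | h | h
    · exact Or.inl (Or.inl ⟨he, h⟩)
    · exact Or.inl (Or.inr ⟨he, h⟩)
    · exact Or.inr ⟨he, h⟩
  have h6 : ∀ U V : Finset (Finset (Tr R n)), ∑ e ∈ U ∪ V, PG cl e ≤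
      ∑ e ∈ U, PG cl e + ∑ e ∈ V, PG cl e := by
    intro U V
    rw [← sum_union_inter]
    have : 0 ≤ ∑ e ∈ U ∩ V, PG cl e := sum_nonneg fun g _ => PG_nonneg cl g
    linarith
  have h7 := sum_le_sum_of_subset_of_nonneg h5 (fun g _ _ => PG_nonneg cl g)
  have h8 := h6 ((F.filter fun e => E1p cl sig e) ∪ (F.filter fun e => E2p A cl sig e))
      (F.filter fun e => E3p A cl sig Fb e)
  have h9 := h6 (F.filter fun e => E1p cl sig e) (F.filter fun e => E2p A cl sig e)
  have h10 := ha (F.filter fun e => E1p cl sig e)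
    (fun e he => ⟨(mem_filter.1 he).2, (hF e (mem_filter.1 he).1).2⟩)
  have h11 := hb (F.filter fun e => E2p A cl sig e)
    (fun e he => ⟨(mem_filter.1 he).2, (hF e (mem_filter.1 he).1).2⟩)
  have h12 := hc (F.filter fun e => E3p A cl sig Fb e)
    (fun e he => ⟨(mem_filter.1 he).2, (hF e (mem_filter.1 he).1).2⟩)
  linarith

end facts

open Classical in
/-- Reassignment lemma, with `lam`. -/
theorem reassign' (A : R → Fin n → S) (cl : R → Fin n → Option S) (sig : Fin n → R → Option Sec)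
    (hsig : ∀ j r r' s, sig j r = some s → sig j r' = some s → r = r')
    (Fb : Sec → S → Prop) (eps : ℚ) (heps : 0 ≤ eps) (heps' : eps ≤ 1 / 80)
    (h1 : ∀ i, ∑ j, 1 / (lam cl j (cl i j) : ℚ) ≤ 1 / 32)
    (h2 : ∀ j z, ((wz A cl j z).card : ℚ) * n ≤ eps * lam cl j none)
    (h3c : ∀ j i, cl i j = none → ((univ.filter fun r => cl r j = none ∧
      ∃ s, sig j r = some s ∧ Fb s (A i j)).card : ℚ) ≤ 2 * eps * lam cl j none)
    (h3s : ∀ j r s, cl r j = none → sig j r = some s → ((univ.filter fun i => cl i j = none ∧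
      Fb s (A i j)).card : ℚ) ≤ eps * lam cl j none) :
    ∃ f : Fin n → Equiv.Perm R, (∀ j i, cl (f j i) j = cl i j) ∧
      ∀ e, Bd A cl sig Fb e → ∃ t ∈ e, f t.1 t.2.1 ≠ t.2.2 := by
  obtain ⟨f, hf1, hf2⟩ := assign cl (univ.filter fun e => Bd A cl sig Fb e)
    (1 / 32 + eps + 2 * eps) (1 / 32 + eps + eps) (by linarith)
    (fun e he => (mem_filter.1 he).2.nonempty) (fun e he => (mem_filter.1 he).2.card_le)
    (fun e he => (mem_filter.1 he).2.col) (fun e he => (mem_filter.1 he).2.cls)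
    (fun j i => split_sum (A := A) (cl := cl) (sig := sig) (Fb := Fb)
      (fun e => ∃ t ∈ e, t.1 = j ∧ t.2.1 = i) _ _ _
      (fun F hF => sum1D hsig h1 j i F hF)
      (fun F hF => sum2D hsig heps h2 j i F hF) (fun F hF => sum3D heps h3c j i F hF) _
      (fun e he => ⟨(mem_filter.1 (mem_filter.1 he).1).2, (mem_filter.1 he).2⟩))
    (fun j r => split_sum (A := A) (cl := cl) (sig := sig) (Fb := Fb)
      (fun e => ∃ t ∈ e, t.1 = j ∧ t.2.2 = r) _ _ _
      (fun F hF => sum1S hsig h1 j r F hF)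
      (fun F hF => sum2S hsig heps h2 j r F hF) (fun F hF => sum3S heps h3s j r F hF) _
      (fun e he => ⟨(mem_filter.1 (mem_filter.1 he).1).2, (mem_filter.1 he).2⟩))
  exact ⟨f, hf1, fun e he => hf2 e (mem_filter.2 ⟨mem_univ _, he⟩)⟩

open Classical in
/-- **Reassignment lemma.** -/
theorem reassign (A : R → Fin n → S) (cl : R → Fin n → Option S) (sig : Fin n → R → Option Sec)
    (hsig : ∀ j r r' s, sig j r = some s → sig j r' = some s → r = r')
    (Fb : Sec → S → Prop) (eps : ℚ) (heps : 0 ≤ eps) (heps' : eps ≤ 1 / 80)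
    (h1 : ∀ i, ∑ j, 1 / (lam cl j (cl i j) : ℚ) ≤ 1 / 32)
    (h2 : ∀ j z, ((wz A cl j z).card : ℚ) * n ≤ eps * lam cl j none)
    (h3c : ∀ j i, cl i j = none → ((univ.filter fun r => cl r j = none ∧
      ∃ s, sig j r = some s ∧ Fb s (A i j)).card : ℚ) ≤ 2 * eps * lam cl j none)
    (h3s : ∀ j r s, cl r j = none → sig j r = some s → ((univ.filter fun i => cl i j = none ∧
      Fb s (A i j)).card : ℚ) ≤ eps * lam cl j none) :
    ∃ f : Fin n → Equiv.Perm R, (∀ j i, cl (f j i) j = cl i j) ∧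
      (∀ i j k s, j ≠ k → sig j (f j i) = some s → sig k (f k i) ≠ some s) ∧
      (∀ j i s, cl i j = none → sig j (f j i) = some s → ¬ Fb s (A i j)) ∧
      (∀ j k i i' s, j ≠ k → cl i j = none → cl i' k = none → sig j (f j i) = some s →
        sig k (f k i') = some s → A i j ≠ A i' k) := by
  obtain ⟨f, hf1, hf2⟩ := reassign' A cl sig hsig Fb eps heps heps' h1 h2 h3c h3s
  refine ⟨f, hf1, ?_, ?_, ?_⟩
  · intro i j k s hjk hs hs'
    obtain ⟨t, ht, ht'⟩ := hf2 {(j, i, f j i), (k, i, f k i)}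
      (Or.inl ⟨j, k, i, _, _, s, hjk, (hf1 j i).symm, (hf1 k i).symm, hs, hs', rfl⟩)
    rw [mem_insert, mem_singleton] at ht
    rcases ht with ht | ht
    · rw [ht] at ht'
      exact ht' rfl
    · rw [ht] at ht'
      exact ht' rfl
  · intro j i s hw hs hFb
    obtain ⟨t, ht, ht'⟩ := hf2 {(j, i, f j i)}
      (Or.inr (Or.inr ⟨j, i, _, s, hw, (hf1 j i).trans hw, hs, hFb, rfl⟩))
    rw [mem_singleton] at ht
    rw [ht] at ht'
    exact ht' rfl
  · intro j k i i' s hjk hw hw' hs hs' hAA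
    obtain ⟨t, ht, ht'⟩ := hf2 {(j, i, f j i), (k, i', f k i')}
      (Or.inr (Or.inl ⟨j, k, i, i', _, _, s, hjk, hw, (hf1 j i).trans hw, hw',
        (hf1 k i').trans hw', hAA, hs, hs', rfl⟩))
    rw [mem_insert, mem_singleton] at ht
    rcases ht with ht | ht
    · rw [ht] at ht'
      exact ht' rfl
    · rw [ht] at ht'
      exact ht' rfl

end Pool.Agent.APL86
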