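import Mathlib

set_option autoImplicit false

/-!
# Removal of rows (helper66, lem_ans 705 (1))

From an array of symbols one can remove at most `32 n k (log n + 7)` rows such that for each row
left the sum of the reciprocals of the multiplicities of its symbols is at most `1 / 16`.
-/

open Finset

namespace Pool.Agent.APL86

/-- harmonic numbers are at most the binary logarithm plus one -/
lemma harmonic_le_log (N : ℕ) : harmonic N ≤ (Nat.log 2 N : ℚ) + 1 := by
  induction N using Nat.strong_induction_on with
  | _ N ih =>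
    rcases Nat.lt_or_ge N 2 with h | h
    · interval_cases N
      · simp
      · simp [harmonic]
    · have hlog : Nat.log 2 N = Nat.log 2 (N / 2) + 1 := Nat.log_of_one_lt_of_le one_lt_two h
      have hlt : N / 2 < N := Nat.div_lt_self (by omega) (by omega)
      have h1 := ih (N / 2) hlt
      have hdec : harmonic N = harmonic (N / 2) + ∑ i ∈ Finset.Ico (N / 2) N, ((↑(i + 1) : ℚ))⁻¹ := by
        unfold harmonic
        rw [Finset.range_eq_Ico, Finset.range_eq_Ico,
          Finset.sum_Ico_consecutive _ (Nat.zero_le _) (le_of_lt hlt)]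
      have hsum : ∑ i ∈ Finset.Ico (N / 2) N, ((↑(i + 1) : ℚ))⁻¹ ≤ 1 := by
        have h2 : ∑ i ∈ Finset.Ico (N / 2) N, ((↑(i + 1) : ℚ))⁻¹
            ≤ ∑ _i ∈ Finset.Ico (N / 2) N, (((N / 2 + 1 : ℕ) : ℚ))⁻¹ := by
          apply Finset.sum_le_sum
          intro i hi
          have := (Finset.mem_Ico.1 hi).1
          apply inv_anti₀
          · exact_mod_cast Nat.succ_pos _
          · exact_mod_cast Nat.succ_le_succ this
        refine h2.trans ?_
        rw [Finset.sum_const, Nat.card_Ico, nsmul_eq_mul]
        have hpos : (0 : ℚ) < ((N / 2 + 1 : ℕ) : ℚ) := by exact_mod_cast Nat.succ_pos _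
        rw [mul_inv_le_iff₀ hpos, one_mul]
        have : N - N / 2 ≤ N / 2 + 1 := by omega
        exact_mod_cast this
      have h3 : harmonic N ≤ ((Nat.log 2 (N / 2) : ℚ) + 1) + 1 := by
        rw [hdec]
        exact add_le_add h1 hsum
      rw [hlog]
      refine h3.trans (le_of_eq ?_)
      push_cast
      ring

lemma harmonic_mono {a b : ℕ} (h : a ≤ b) : harmonic a ≤ harmonic b := by
  unfold harmonic
  apply Finset.sum_le_sum_of_subset_of_nonneg
  · exact Finset.range_mono h
  · intro i _ _
    positivity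

variable {m n k : ℕ}

/-- multiplicity of the symbol `y` in the column `j` on the rows of `M` -/
def mu (A : Fin m → Fin n → Fin k) (M : Finset (Fin m)) (j : Fin n) (y : Fin k) : ℕ :=
  (M.filter fun i' => A i' j = y).card

/-- the potential -/
def pot (A : Fin m → Fin n → Fin k) (M : Finset (Fin m)) : ℚ :=
  ∑ j, ∑ y, harmonic (min (mu A M j y) (32 * n))

lemma mu_erase_ne (A : Fin m → Fin n → Fin k) (M : Finset (Fin m)) (j : Fin n) (y : Fin k)
    (i : Fin m) (h : A i j ≠ y) : mu A (M.erase i) j y = mu A M j y := by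
  unfold mu
  congr 1
  ext x
  simp only [mem_filter, mem_erase]
  constructor
  · rintro ⟨⟨_, h1⟩, h2⟩
    exact ⟨h1, h2⟩
  · rintro ⟨h1, h2⟩
    refine ⟨⟨?_, h1⟩, h2⟩
    rintro rfl
    exact h h2

lemma mu_erase_eq (A : Fin m → Fin n → Fin k) (M : Finset (Fin m)) (j : Fin n)
    (i : Fin m) (hi : i ∈ M) : mu A (M.erase i) j (A i j) + 1 = mu A M j (A i j) := by
  unfold mu
  have : (M.erase i).filter (fun i' => A i' j = A i j)
      = (M.filter (fun i' => A i' j = A i j)).erase i := by
    ext x
    simp only [mem_filter, mem_erase]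
    tauto
  rw [this, Finset.card_erase_of_mem (by simp [hi])]
  have hpos : 0 < (M.filter (fun i' => A i' j = A i j)).card :=
    Finset.card_pos.2 ⟨i, by simp [hi]⟩
  omega

/-- one column: the potential drops by the reciprocal, up to `1 / (32 n)` -/
lemma col_drop (A : Fin m → Fin n → Fin k) (M : Finset (Fin m)) (j : Fin n) (i : Fin m)
    (hi : i ∈ M) (hn : 0 < n) :
    (∑ y, harmonic (min (mu A (M.erase i) j y) (32 * n))) + 1 / (mu A M j (A i j) : ℚ)
      ≤ (∑ y, harmonic (min (mu A M j y) (32 * n))) + 1 / (32 * n : ℚ) := by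
  rw [← Finset.add_sum_erase _ _ (mem_univ (A i j)), ← Finset.add_sum_erase univ
    (fun y => harmonic (min (mu A M j y) (32 * n))) (mem_univ (A i j))]
  have hrest : ∑ y ∈ univ.erase (A i j), harmonic (min (mu A (M.erase i) j y) (32 * n))
      = ∑ y ∈ univ.erase (A i j), harmonic (min (mu A M j y) (32 * n)) := by
    apply Finset.sum_congr rfl
    intro y hy
    rw [mu_erase_ne A M j y i (Finset.ne_of_mem_erase hy).symm]
  rw [hrest]
  have hmu := mu_erase_eq A M j i hi
  set a := mu A (M.erase i) j (A i j) with ha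
  rw [← hmu]
  have hn' : (0 : ℚ) < n := by exact_mod_cast hn
  have key : harmonic (min a (32 * n)) + 1 / ((a + 1 : ℕ) : ℚ)
      ≤ harmonic (min (a + 1) (32 * n)) + 1 / (32 * n : ℚ) := by
    rcases Nat.lt_or_ge a (32 * n) with h | h
    · rw [min_eq_left (le_of_lt h), min_eq_left (Nat.succ_le_of_lt h), harmonic_succ]
      have : (0 : ℚ) ≤ 1 / (32 * n : ℚ) := by positivity
      rw [one_div]
      linarith
    · rw [min_eq_right h, min_eq_right (by omega)]
      have : 1 / ((a + 1 : ℕ) : ℚ) ≤ 1 / (32 * n : ℚ) := by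
        apply one_div_le_one_div_of_le
        · positivity
        · have h1 : 32 * n ≤ a + 1 := by omega
          exact_mod_cast h1
      linarith
  linarith

/-- removal lemma -/
theorem exists_rows (A : Fin m → Fin n → Fin k) :
    ∃ M : Finset (Fin m),
      (∀ i ∈ M, ∑ j, (1 : ℚ) / ((M.filter fun i' => A i' j = A i j).card : ℚ) ≤ 1 / 16) ∧
      (Mᶜ).card ≤ 32 * (n * k) * (Nat.log 2 n + 7) := by
  classical
  rcases Nat.eq_zero_or_pos n with hn | hn
  · subst hn
    exact ⟨univ, fun i _ => by simp, by simp⟩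
  have hex : ∃ M : Finset (Fin m), ((Mᶜ).card : ℚ) + 32 * pot A M ≤ 32 * pot A univ :=
    ⟨univ, by simp⟩
  obtain ⟨M, hM, hmin⟩ := Finset.exists_min_image
    (univ.filter fun M : Finset (Fin m) => ((Mᶜ).card : ℚ) + 32 * pot A M ≤ 32 * pot A univ)
    (fun M => M.card) (by
      obtain ⟨M, hM⟩ := hex
      exact ⟨M, by simp only [mem_filter, mem_univ, true_and]; exact hM⟩)
  simp only [mem_filter, mem_univ, true_and] at hM hmin
  refine ⟨M, ?_, ?_⟩
  · intro i hi
    by_contra hcon
    push Not at hcon
    have hdrop : pot A (M.erase i) + ∑ j, 1 / (mu A M j (A i j) : ℚ)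
        ≤ pot A M + ∑ _j : Fin n, 1 / (32 * n : ℚ) := by
      unfold pot
      rw [← Finset.sum_add_distrib, ← Finset.sum_add_distrib]
      exact Finset.sum_le_sum fun j _ => col_drop A M j i hi hn
    have hn' : (0 : ℚ) < n := by exact_mod_cast hn
    have h32 : ∑ _j : Fin n, 1 / (32 * n : ℚ) = 1 / 32 := by
      rw [Finset.sum_const, card_univ, Fintype.card_fin, nsmul_eq_mul]
      field_simp
    rw [h32] at hdrop
    have hcon' : (1 : ℚ) / 16 < ∑ j, 1 / (mu A M j (A i j) : ℚ) := hcon
    have hc : ((M.erase i)ᶜ).card = (Mᶜ).card + 1 := by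
      have h1 := Finset.card_compl M
      have h2 := Finset.card_compl (M.erase i)
      have h3 := Finset.card_erase_of_mem hi
      have h4 : 0 < M.card := Finset.card_pos.2 ⟨i, hi⟩
      have h5 : M.card ≤ Fintype.card (Fin m) := Finset.card_le_univ M
      omega
    have hlt := hmin (M.erase i) (by
      rw [hc]
      push_cast
      linarith)
    have := Finset.card_erase_lt_of_mem hi
    omega
  · have hpos : 0 ≤ pot A M := by
      unfold pot
      apply Finset.sum_nonneg
      intro j _
      apply Finset.sum_nonneg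
      intro y _
      unfold harmonic
      positivity
    have hup : pot A univ ≤ (n * k : ℕ) * ((Nat.log 2 n : ℚ) + 6) := by
      have hle : ∀ (j : Fin n) (y : Fin k),
          harmonic (min (mu A univ j y) (32 * n)) ≤ (Nat.log 2 n : ℚ) + 6 := by
        intro j y
        refine (harmonic_mono (min_le_right _ _)).trans ((harmonic_le_log _).trans ?_)
        have hlog : Nat.log 2 (32 * n) = Nat.log 2 n + 5 := by
          have h32 : 32 * n = n * 2 * 2 * 2 * 2 * 2 := by ring
          rw [h32, Nat.log_mul_base one_lt_two (by omega), Nat.log_mul_base one_lt_two (by omega),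
            Nat.log_mul_base one_lt_two (by omega), Nat.log_mul_base one_lt_two (by omega),
            Nat.log_mul_base one_lt_two (by omega)]
        rw [hlog]
        push_cast
        linarith
      unfold pot
      calc ∑ j : Fin n, ∑ y : Fin k, harmonic (min (mu A univ j y) (32 * n))
          ≤ ∑ _j : Fin n, ∑ _y : Fin k, ((Nat.log 2 n : ℚ) + 6) :=
            Finset.sum_le_sum fun j _ => Finset.sum_le_sum fun y _ => hle j y
        _ = (n * k : ℕ) * ((Nat.log 2 n : ℚ) + 6) := by
            simp only [Finset.sum_const, card_univ, Fintype.card_fin, nsmul_eq_mul]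
            push_cast
            ring
    have hfin : ((Mᶜ).card : ℚ) ≤ ((32 * (n * k) * (Nat.log 2 n + 7) : ℕ) : ℚ) := by
      have h1 : ((Mᶜ).card : ℚ) ≤ 32 * ((n * k : ℕ) * ((Nat.log 2 n : ℚ) + 6)) := by
        linarith
      refine h1.trans ?_
      push_cast
      have h2 : (0 : ℚ) ≤ (n : ℚ) * k := by positivity
      nlinarith
    exact_mod_cast hfin

end Pool.Agent.APL86
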